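import Pool.Agent.R871.SG.LaurC
import Pool.Agent.R871.SG.FamA

/-!
Holomorphic maps of slow growth from the punctured plane to the members of a family are limits of
Laurent polynomials in members of the family.
-/

set_option autoImplicit false

namespace Pool.Agent.Run7.h346.GF

open Filter Topology Metric Set MvPolynomial
open Pool.Agent.R871.SG

variable {τ σ ι : Type} [Fintype τ] [Fintype σ]

omit [Fintype τ] [Fintype σ] in
theorem cont_famL (F : MvPolynomial (τ ⊕ σ) ℂ) :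
    Continuous fun p : (τ → ℂ) × (σ → ℂ) => eval (Sum.elim p.1 p.2) F := by
  refine (MvPolynomial.continuous_eval F).comp (continuous_pi fun i => ?_)
  rcases i with i | i
  · exact (continuous_apply i).comp continuous_fst
  · exact (continuous_apply i).comp continuous_snd

omit [Fintype τ] [Fintype σ] in
theorem fam_tendsto {T : Type} {l : Filter T} {t : T → τ → ℂ} {t0 : τ → ℂ}
    (h1 : Tendsto t l (𝓝 t0)) {v : T → σ → ℂ} {v0 : σ → ℂ} (h2 : Tendsto v l (𝓝 v0))
    (F : MvPolynomial (τ ⊕ σ) ℂ) :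
    Tendsto (fun k => eval (Sum.elim (t k) (v k)) F) l (𝓝 (eval (Sum.elim t0 v0) F)) := by
  refine ((MvPolynomial.continuous_eval F).tendsto _).comp (tendsto_pi_nhds.2 fun i => ?_)
  rcases i with i | i
  · exact tendsto_pi_nhds.1 h1 i
  · exact tendsto_pi_nhds.1 h2 i

theorem hpow_ann {R : ℝ} (hR : 1 ≤ R) {z : ℂ} (h1 : R⁻¹ ≤ ‖z‖) (h2 : ‖z‖ ≤ R) (m : ℤ) :
    ‖z ^ m‖ ≤ R ^ m.natAbs := by
  have hz : 0 < ‖z‖ := lt_of_lt_of_le (by positivity) h1
  rw [norm_zpow]
  rcases le_total 0 m with hm | hm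
  · obtain ⟨k, rfl⟩ := Int.eq_ofNat_of_zero_le hm
    simp only [zpow_natCast, Int.natAbs_natCast]
    exact pow_le_pow_left₀ hz.le h2 k
  · obtain ⟨k, hk⟩ := Int.eq_ofNat_of_zero_le (neg_nonneg.2 hm)
    obtain rfl : m = -(k : ℤ) := by omega
    rw [zpow_neg, zpow_natCast, Int.natAbs_neg, Int.natAbs_natCast, ← inv_pow]
    exact pow_le_pow_left₀ (by positivity) (inv_le_of_inv_le₀ (by positivity) h1) k

theorem fin_natAbs (D : ℕ) : {m : ℤ | m.natAbs ≤ D}.Finite := by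
  refine (Finset.Icc (-(D : ℤ)) D).finite_toSet.subset fun m hm => ?_
  simp only [Finset.coe_Icc, mem_Icc]
  have : m.natAbs ≤ D := hm
  omega

theorem summable_half : Summable fun m : ℤ => (1 / 2 : ℝ) ^ m.natAbs := by
  refine Summable.of_nat_of_neg ?_ ?_
  · simpa using summable_geometric_of_lt_one (by norm_num : (0 : ℝ) ≤ 1 / 2) (by norm_num)
  · simpa using summable_geometric_of_lt_one (by norm_num : (0 : ℝ) ≤ 1 / 2) (by norm_num)

/-- **Laurent approximations in the members of a family.** -/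
theorem approx_fam (F : ι → MvPolynomial (τ ⊕ σ) ℂ) (K : ℕ → Set (τ → ℂ))
    (hK : ∀ l, IsClosed (K l)) : ∃ φ : ℝ → ℝ, Grows φ ∧
    ∀ (l : ℕ), ∀ t ∈ K l, ∀ f : ℂ → σ → ℂ, DifferentiableOn ℂ f {0}ᶜ →
      (∀ z, z ≠ 0 → ∀ i, eval (Sum.elim t (f z)) (F i) = 0) → SlowL φ f →
      ∀ ρ η : ℝ, 0 < ρ → 0 < η → ∃ t' ∈ K l, ∃ (c : ℤ → σ → ℂ) (D : ℕ),
        (∀ z, z ≠ 0 → ∀ i, eval (Sum.elim t' (lp c D z)) (F i) = 0) ∧ ‖t' - t‖ ≤ η ∧
          ∀ z, ρ⁻¹ ≤ ‖z‖ → ‖z‖ ≤ ρ → ‖lp c D z - f z‖ ≤ η := by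
  set L : ℕ → ℤ → Set ((τ → ℂ) × (σ → ℂ)) :=
    fun l k => {p | (k = 0 → p.1 ∈ K l) ∧ (k ≠ 0 → p.1 = 0)} with hL
  set e : {z : ℂ // 1 / 2 ≤ ‖z‖ ∧ ‖z‖ ≤ 2} → ℤ → ℂ := fun z m => (z : ℂ) ^ m with he
  have he2 : ∀ t m, ‖e t m‖ ≤ 2 ^ m.natAbs := fun t m =>
    hpow_ann (by norm_num) (by simpa using t.2.1) t.2.2 m
  set Z : Set ((τ → ℂ) × (σ → ℂ)) := {p | ∀ i, eval (Sum.elim p.1 p.2) (F i) = 0} with hZ
  have hZc : IsClosed Z := by
    have : Z = ⋂ i, {p | eval (Sum.elim p.1 p.2) (F i) = 0} := by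
      ext x; simp [hZ]
    rw [this]
    exact isClosed_iInter fun i => isClosed_eq (cont_famL (F i)) continuous_const
  have hLc : ∀ l k, IsClosed (L l k) := by
    intro l k
    by_cases hk : k = 0
    · have : L l k = Prod.fst ⁻¹' (K l) := by
        ext p
        simp [hL, hk]
      rw [this]
      exact (hK l).preimage continuous_fst
    · have : L l k = Prod.fst ⁻¹' {0} := by
        ext p
        simp [hL, hk]
      rw [this]
      exact isClosed_singleton.preimage continuous_fst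
  have key := fun l : ℕ => approx_gen (E := (τ → ℂ) × (σ → ℂ)) (fun m : ℤ => m.natAbs) fin_natAbs
    summable_half (L l) (hLc l) e he2 (fun _ => Z) fun _ => hZc
  choose δ hδ hap using key
  obtain ⟨ε, hε, hεδ⟩ := min_delta1 δ hδ
  obtain ⟨φ, hφ, hgr⟩ := growthL ε hε
  refine ⟨φ, hφ, fun l t0 ht0 f hf hfF hs ρ η hρ hη => ?_⟩
  set b : ℤ → (τ → ℂ) × (σ → ℂ) := fun k => (if k = 0 then t0 else 0, lc f k) with hb
  have hbn : ∀ k, ‖b k‖ ≤ (if k = 0 then ‖t0‖ else 0) + ‖lc f k‖ := by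
    intro k
    rw [hb]
    simp only [Prod.norm_mk]
    by_cases hk : k = 0
    · simp only [hk, if_true]
      exact max_le (le_add_of_nonneg_right (norm_nonneg _)) (le_add_of_nonneg_left (norm_nonneg _))
    · simp [hk]
  have hbs : ∀ x : ℂ, x ≠ 0 → HasSum (fun k => x ^ k • b k) (t0, f x) := by
    intro x hx
    have h1 : HasSum (fun k : ℤ => x ^ k • (if k = 0 then t0 else 0)) t0 := by
      have h2 := hasSum_single (f := fun k : ℤ => x ^ k • (if k = 0 then t0 else 0)) 0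
        (fun k hk => by simp [hk])
      simpa using h2
    exact h1.prodMk (lc_hasSum hf hx)
  have htn : ∀ t : {z : ℂ // 1 / 2 ≤ ‖z‖ ∧ ‖z‖ ≤ 2}, (t : ℂ) ≠ 0 := by
    intro t h0
    have := t.2.1
    rw [h0, norm_zero] at this
    norm_num at this
  set ρ1 : ℝ := max ρ 1 with hρ1
  obtain ⟨b', D, hb'0, hb'L, hb'C, hb's, hb'η⟩ := hap l b
    (fun k => ⟨fun hk => by simpa [hb, hk] using ht0, fun hk => by simp [hb, hk]⟩)
    (fun t => by
      have h1 : ∑' j, e t j • b j = (t0, f t.1) := (hbs t.1 (htn t)).tsum_eq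
      rw [h1]
      exact hfF t.1 (htn t))
    (fun A hA => by
      have h1 : Summable fun k : ℤ => A ^ k.natAbs * (if k = 0 then ‖t0‖ else 0) :=
        summable_of_ne_finset_zero (s := {0}) fun k hk => by
          have : k ≠ 0 := by simpa using hk
          simp [this]
      refine Summable.of_nonneg_of_le (fun k => by positivity) (fun k => ?_)
        (h1.add (lc_summable hf hA))
      rw [← mul_add]
      exact mul_le_mul_of_nonneg_left (hbn k) (by positivity))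
    (fun D₀ => by
      obtain ⟨D, hD, h⟩ := hgr f hf hs 4 (max D₀ l) (by norm_num)
      refine ⟨D, (le_max_left _ _).trans hD, fun j hj => ?_⟩
      have hj0 : j ≠ 0 := by
        rintro rfl
        simp at hj
      have h1 : ‖b j‖ ≤ ‖lc f j‖ := by
        have := hbn j
        rwa [if_neg hj0, zero_add] at this
      have h2 : ε D ≤ δ l D := hεδ l D ((le_max_right _ _).trans hD)
      exact ((mul_le_mul_of_nonneg_left h1 (by positivity)).trans (h j hj)).trans h2)
    ρ1 η (by positivity) hη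
  set c : ℤ → σ → ℂ := fun m => (b' m).2 with hc
  have hc0 : ∀ m : ℤ, D < m.natAbs → c m = 0 := fun m hm => by
    rw [hc]
    simp only
    rw [hb'0 m hm]
    rfl
  have hb's' : ∀ x : ℂ, HasSum (fun k => x ^ k • b' k) ((b' 0).1, lp c D x) := by
    intro x
    have h1 : HasSum (fun k : ℤ => x ^ k • (b' k).1) (b' 0).1 := by
      have h2 := hasSum_single (f := fun k : ℤ => x ^ k • (b' k).1) 0
        (fun k hk => by rw [(hb'L k).2 hk, smul_zero])
      simpa using h2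
    exact h1.prodMk (lp_hasSum hc0 x)
  refine ⟨(b' 0).1, (hb'L 0).1 rfl, c, D, ?_, ?_, fun x hx1 hx2 => ?_⟩
  · intro z hz i
    have hd : DifferentiableOn ℂ (fun z => (Sum.elim (b' 0).1 (lp c D z) : τ ⊕ σ → ℂ)) {0}ᶜ := by
      refine differentiableOn_pi.2 fun s => ?_
      rcases s with s | s
      · exact differentiableOn_const _
      · exact differentiableOn_pi.1 (lp_diff c D) s
    refine zero_annulus (h := fun z => eval (Sum.elim (b' 0).1 (lp c D z)) (F i))
      (diffOn_ev hd (F i)) (fun x h1 h2 => ?_) hz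
    have h3 := hb'C ⟨x, h1, h2⟩
    have h4 : ∑' j, e ⟨x, h1, h2⟩ j • b' j = ((b' 0).1, lp c D x) := (hb's' x).tsum_eq
    rw [h4] at h3
    exact h3 i
  · have h1 : ‖(b' 0).1 - t0‖ ≤ ‖b' 0 - b 0‖ := by
      have h2 : (b' 0 - b 0).1 = (b' 0).1 - t0 := by simp [hb]
      rw [← h2]
      exact norm_fst_le _
    have h2 : ρ1 ^ (0 : ℤ).natAbs * ‖b' 0 - b 0‖ ≤ ∑' j : ℤ, ρ1 ^ j.natAbs * ‖b' j - b j‖ :=
      hb's.le_tsum 0 fun j _ => by positivity
    rw [Int.natAbs_zero, pow_zero, one_mul] at h2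
    exact (h1.trans h2).trans hb'η
  · have hx0 : x ≠ 0 := by
      intro h0
      rw [h0, norm_zero] at hx1
      have : 0 < ρ⁻¹ := by positivity
      linarith
    have h1 := (hb's' x).sub (hbs x hx0)
    have hdif : ∀ k : ℤ, ‖x ^ k • b' k - x ^ k • b k‖ ≤ ρ1 ^ k.natAbs * ‖b' k - b k‖ := by
      intro k
      rw [← smul_sub, norm_smul]
      refine mul_le_mul_of_nonneg_right (hpow_ann (le_max_right _ _) ?_ ?_ k) (norm_nonneg _)
      · exact (inv_anti₀ hρ (le_max_left _ _)).trans hx1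
      · exact hx2.trans (le_max_left _ _)
    have h2 : ‖(((b' 0).1, lp c D x) : (τ → ℂ) × (σ → ℂ)) - (t0, f x)‖ ≤ η :=
      (h1.tsum_eq ▸ tsum_of_norm_bounded hb's.hasSum hdif).trans hb'η
    exact (norm_snd_le _).trans h2

end Pool.Agent.Run7.h346.GF
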