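import Pool.Agent.Run7.h346.GF.Unit
import Pool.Agent.Run7.h346.GF.Approx

/-!
Families of quasi-projective varieties: holomorphic maps of slow growth from the punctured plane to
the members, and algebraic maps from the multiplicative group, with one growth condition.
-/

set_option autoImplicit false

namespace Pool.Agent.Run7.h346.GF

open Filter Topology Metric Set MvPolynomial
open Pool.Agent.R871.SG Pool.Agent.N634.SH

variable {n : ℕ} {τ ι κ : Type}

/-- `f` is a holomorphic map from the punctured plane to the quasi-projective variety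
`{F = 0, D ≠ 0}`, given by homogeneous coordinates without common zeros. -/
def CurveL (F : ι → MvPolynomial (Fin (n + 1)) ℂ) (D : MvPolynomial (Fin (n + 1)) ℂ)
    (f : ℂ → Fin (n + 1) → ℂ) : Prop :=
  DifferentiableOn ℂ f {0}ᶜ ∧ ∀ z, z ≠ 0 → f z ≠ 0 ∧ (∀ i, eval (f z) (F i) = 0) ∧ eval (f z) D ≠ 0

/-- The map to the projective space with the homogeneous coordinates `f` is not constant. -/
def NC (f : ℂ → Fin (n + 1) → ℂ) : Prop :=
  ∃ z w, z ≠ 0 ∧ w ≠ 0 ∧ ∃ i j, f z i * f w j ≠ f z j * f w i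

/-- The equations of the member with the parameters `t`. -/
noncomputable def mem (t : τ → ℂ) (F : MvPolynomial (Fin (n + 1)) (MvPolynomial τ ℂ)) :
    MvPolynomial (Fin (n + 1)) ℂ := map (eval t) F

/-- A family of polynomials as a polynomial in all variables. -/
noncomputable def big (σ : Type) (F : MvPolynomial (Fin (n + 1)) (MvPolynomial τ ℂ)) :
    MvPolynomial (τ ⊕ (Fin (n + 1) ⊕ σ)) ℂ :=
  eval₂ (rename (Sum.inl : τ → τ ⊕ (Fin (n + 1) ⊕ σ))).toRingHom
    (fun j => X (Sum.inr (Sum.inl j))) F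

theorem eval_big {σ : Type} (t : τ → ℂ) (v : Fin (n + 1) ⊕ σ → ℂ)
    (F : MvPolynomial (Fin (n + 1)) (MvPolynomial τ ℂ)) :
    eval (Sum.elim t v) (big σ F) = eval (fun j => v (Sum.inl j)) (mem t F) := by
  have h1 : (eval (Sum.elim t v)).comp
      (rename (Sum.inl : τ → τ ⊕ (Fin (n + 1) ⊕ σ)) : MvPolynomial τ ℂ →ₐ[ℂ] _).toRingHom =
      eval t := by
    refine MvPolynomial.ringHom_ext (fun a => ?_) fun x => ?_
    · simp
    · simp
  rw [big, mem, MvPolynomial.eval₂_comp_left, h1, MvPolynomial.eval_map]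
  congr 1
  funext j
  simp

theorem pc_diffOn (P : Fin (n + 1) → Polynomial ℂ) : Differentiable ℂ (pc P) :=
  differentiable_pi.2 fun j => (P j).differentiable

/-- Polynomials satisfy all growth conditions. -/
theorem pc_slowL {φ : ℝ → ℝ} (hφ : Grows φ) (P : Fin (n + 1) → Polynomial ℂ) :
    SlowL φ (pc P) := by
  have h := pvL_slow hφ P (fun _ : Fin 0 => 0) 0
  intro R
  obtain ⟨r, hr, h1⟩ := h R
  refine ⟨r, hr, fun z hz1 hz2 => ?_⟩
  have h2 := h1 z hz1 hz2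
  have h3 : ‖pvL P (fun _ : Fin 0 => 0) 0 z‖ = ‖pc P z‖ := by
    rw [pvL, Prod.norm_mk]
    have h4 : ‖(fun j : Fin 0 => Polynomial.eval z ((fun _ : Fin 0 => (0 : Polynomial ℂ)) j) /
        z ^ 0)‖ = 0 := by
      rw [norm_eq_zero]
      exact Subsingleton.elim _ _
    rw [h4, max_eq_left (norm_nonneg _)]
    rfl
  rwa [h3] at h2

/-- Clearing common zeros. -/
theorem curve_of_eqs {F : ι → MvPolynomial (Fin (n + 1)) ℂ} (hF : ∀ i, ∃ e, (F i).IsHomogeneous e)
    {D : MvPolynomial (Fin (n + 1)) ℂ} {d : ℕ} (hD : D.IsHomogeneous d)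
    {x : ℂ → Fin (n + 1) → ℂ} {a : ℂ → ℂ} {q : Polynomial ℂ} {P : Fin (n + 1) → Polynomial ℂ}
    (hq : q ≠ 0) (hP : ∀ z, pc P z ≠ 0) (ha : ∀ z, z ≠ 0 → q.eval z ≠ 0 → a z ≠ 0)
    (hx : ∀ z, z ≠ 0 → x z = a z • pc P z) (hxF : ∀ z, z ≠ 0 → ∀ i, eval (x z) (F i) = 0)
    {y : ℂ → Fin (n + 1) → ℂ} (hy : DifferentiableOn ℂ y {0}ᶜ)
    (hxy : ∀ z, z ≠ 0 → ∀ j, y z j * eval (x z) D = x z j ^ d) :
    CurveL F D (pc P) := by
  have hdense : Dense {z : ℂ | z ≠ 0 ∧ q.eval z ≠ 0} := by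
    have hfin : {z : ℂ | z = 0 ∨ q.eval z = 0}.Finite := by
      refine ((finite_singleton (0 : ℂ)).union (q.roots.toFinset.finite_toSet)).subset fun z hz => ?_
      rcases hz with hz | hz
      · exact Or.inl hz
      · exact Or.inr (by simpa [Polynomial.mem_roots hq] using hz)
    have : {z : ℂ | z ≠ 0 ∧ q.eval z ≠ 0} = {z : ℂ | z = 0 ∨ q.eval z = 0}ᶜ := by
      ext; simp [not_or]
    rw [this]
    exact hfin.countable.dense_compl ℂ
  have hPc : ∀ G : MvPolynomial (Fin (n + 1)) ℂ, Continuous fun z => eval (pc P z) G := fun G =>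
    (MvPolynomial.continuous_eval G).comp (pc_diffOn P).continuous
  refine ⟨(pc_diffOn P).differentiableOn, fun z0 hz0 => ⟨hP z0, fun i => ?_, fun hcon => ?_⟩⟩
  · obtain ⟨e, he⟩ := hF i
    by_contra hcon
    obtain ⟨z, ⟨hz1, hz2⟩, hz3⟩ := hdense.inter_nhds_nonempty
      ((hPc (F i)).continuousAt.eventually_ne hcon)
    refine hz3 ?_
    have h1 := hxF z hz1 i
    rw [hx z hz1, eval_smul_form he] at h1
    exact (mul_eq_zero.1 h1).resolve_left (pow_ne_zero _ (ha z hz1 hz2))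
  · -- the relation with `y`
    have hrel : ∀ j, y z0 j * eval (pc P z0) D = pc P z0 j ^ d := by
      intro j
      by_contra hne
      have hc : ContinuousAt (fun z => y z j * eval (pc P z) D - pc P z j ^ d) z0 := by
        have h1 : ContinuousAt y z0 := hy.continuousOn.continuousAt
          (isOpen_compl_singleton.mem_nhds hz0)
        have h2 : ContinuousAt (fun z => y z j) z0 := (continuousAt_pi.1 h1 j)
        have h3 : Continuous fun z => pc P z j ^ d :=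
          ((continuous_apply j).comp (pc_diffOn P).continuous).pow d
        exact (h2.mul (hPc D).continuousAt).sub h3.continuousAt
      obtain ⟨z, ⟨hz1, hz2⟩, hz3⟩ := hdense.inter_nhds_nonempty
        (hc.eventually_ne (sub_ne_zero.2 hne))
      refine hz3 ?_
      have h1 := hxy z hz1 j
      rw [hx z hz1, eval_smul_form hD, Pi.smul_apply, smul_eq_mul, mul_pow] at h1
      have h2 : a z ^ d ≠ 0 := pow_ne_zero _ (ha z hz1 hz2)
      refine sub_eq_zero.2 (mul_left_cancel₀ h2 ?_)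
      linear_combination h1
    refine hP z0 (funext fun j => ?_)
    have h1 := hrel j
    rw [hcon, mul_zero] at h1
    exact pow_eq_zero_iff_of_pos_or_zero h1
where
  pow_eq_zero_iff_of_pos_or_zero {a : ℂ} {d : ℕ} (h : 0 = a ^ d) : a = 0 := by
    rcases Nat.eq_zero_or_pos d with hd | hd
    · rw [hd, pow_zero] at h
      exact absurd h.symm one_ne_zero
    · exact (pow_eq_zero_iff hd.ne').1 h.symm

/-- A growth condition for `f` which gives one for `(f, f ^ d / D(f))`. -/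
theorem slow_pair {φ : ℝ → ℝ} (hφ : Grows φ) {d : ℕ} {f : ℂ → Fin (n + 1) → ℂ} {b : ℂ} {k : ℤ}
    (hb : b ≠ 0) (hf0 : ∀ z, z ≠ 0 → f z ≠ 0)
    (hs : SlowL (fun r => min (φ r / (d + 2)) (Real.sqrt r)) f) :
    SlowL φ fun z => (Sum.elim (f z) fun j => f z j ^ d / (b * z ^ k) :
      Fin (n + 1) ⊕ Fin (n + 1) → ℂ) := by
  intro R
  set N0 : ℝ := |(k : ℝ)| + |Real.log ‖b‖| with hN0
  have h5 : ∀ᶠ r in atTop, ((d : ℝ) + 2) * N0 ≤ φ r / Real.log r := hφ.eventually_ge_atTop _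
  have h6 : ∀ᶠ r : ℝ in atTop, Real.exp 1 ≤ r := eventually_ge_atTop _
  obtain ⟨R0, hR0⟩ := eventually_atTop.1 (h5.and h6)
  obtain ⟨r, hr, h1⟩ := hs (max R R0)
  have hr1 : R < r := (le_max_left _ _).trans_lt hr
  obtain ⟨h7, h8⟩ := hR0 r ((le_max_right _ _).trans hr.le)
  have hr0 : 0 < r := (Real.exp_pos 1).trans_le h8
  have hlog : 1 ≤ Real.log r := by
    rw [Real.le_log_iff_exp_le hr0]
    exact h8
  have hr1' : 1 ≤ r := by
    have := Real.add_one_le_exp (1 : ℝ)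
    linarith
  set Φ : ℝ := φ r / (d + 2) with hΦ
  have hd2 : (0 : ℝ) < (d : ℝ) + 2 := by positivity
  have hφr : φ r = (d + 2) * Φ := by
    rw [hΦ]
    field_simp
  have hN00 : 0 ≤ N0 := by positivity
  have hΦN : N0 * Real.log r ≤ Φ := by
    rw [le_div_iff₀ (by linarith), hφr] at h7
    have : (d + 2) * (N0 * Real.log r) ≤ (d + 2) * Φ := by linarith
    exact le_of_mul_le_mul_left this hd2
  have hΦ0 : 0 ≤ Φ := le_trans (by positivity) hΦN
  refine ⟨r, hr1, fun z hz1 hz2 => ?_⟩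
  have hz0 : z ≠ 0 := by
    rintro rfl
    rw [norm_zero] at hz1
    have : 0 < r⁻¹ := by positivity
    linarith
  have hfz : 0 < ‖f z‖ := norm_pos_iff.2 (hf0 z hz0)
  have h2 : Real.log ‖f z‖ ≤ Φ := (h1 z hz1 hz2).trans (min_le_left _ _)
  have h3 : ‖f z‖ ≤ Real.exp Φ := (Real.log_le_iff_le_exp hfz).1 h2
  have hdΦ : 0 ≤ (d : ℝ) * Φ := by positivity
  have hle : ‖(Sum.elim (f z) fun j => f z j ^ d / (b * z ^ k) :
      Fin (n + 1) ⊕ Fin (n + 1) → ℂ)‖ ≤ Real.exp (φ r) := by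
    refine (pi_norm_le_iff_of_nonneg (Real.exp_pos _).le).2 fun s => ?_
    rcases s with s | s
    · refine ((norm_le_pi_norm (f z) s).trans h3).trans (Real.exp_le_exp.2 ?_)
      rw [hφr]
      linarith
    · simp only [Sum.elim_inr]
      have hzk : ‖z ^ k‖⁻¹ ≤ Real.exp (|(k : ℝ)| * Real.log r) := by
        have h9 := hpow_ann hr1' hz1 hz2 (-k)
        rw [zpow_neg, norm_inv] at h9
        refine h9.trans (le_of_eq ?_)
        have h10 : |(k : ℝ)| = ((k.natAbs : ℕ) : ℝ) := by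
          rw [Nat.cast_natAbs, Int.cast_abs]
        rw [h10, mul_comm, Real.exp_mul, Real.exp_log hr0, Int.natAbs_neg, Real.rpow_natCast]
      have hbn : ‖b‖⁻¹ ≤ Real.exp (|Real.log ‖b‖|) := by
        have hb0 : 0 < ‖b‖ := norm_pos_iff.2 hb
        rw [← Real.exp_log (inv_pos.2 hb0), Real.log_inv]
        exact Real.exp_le_exp.2 (neg_le_abs _)
      have hfd : ‖f z s‖ ^ d ≤ Real.exp (d * Φ) := by
        rw [Real.exp_nat_mul]
        exact pow_le_pow_left₀ (norm_nonneg _) ((norm_le_pi_norm (f z) s).trans h3) d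
      rw [norm_div, norm_pow, norm_mul, div_eq_mul_inv, mul_inv]
      calc ‖f z s‖ ^ d * (‖b‖⁻¹ * ‖z ^ k‖⁻¹)
          ≤ Real.exp (d * Φ) * (Real.exp (|Real.log ‖b‖|) * Real.exp (|(k : ℝ)| * Real.log r)) := by
            gcongr
        _ = Real.exp (d * Φ + (|Real.log ‖b‖| + |(k : ℝ)| * Real.log r)) := by
            rw [Real.exp_add, Real.exp_add]
        _ ≤ Real.exp (φ r) := by
            refine Real.exp_le_exp.2 ?_
            rw [hφr]
            have h9 : |Real.log ‖b‖| ≤ |Real.log ‖b‖| * Real.log r :=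
              le_mul_of_one_le_right (abs_nonneg _) hlog
            have h10 : |Real.log ‖b‖| + |(k : ℝ)| * Real.log r ≤ N0 * Real.log r := by
              rw [hN0]
              linarith
            linarith
  have hpos : 0 < ‖(Sum.elim (f z) fun j => f z j ^ d / (b * z ^ k) :
      Fin (n + 1) ⊕ Fin (n + 1) → ℂ)‖ := by
    refine norm_pos_iff.2 fun h => hf0 z hz0 ?_
    funext j
    exact congrFun h (Sum.inl j)
  exact (Real.log_le_iff_le_exp hpos).2 hle

theorem grows_div {φ : ℝ → ℝ} (hφ : Grows φ) (d : ℕ) : Grows fun r => φ r / ((d : ℝ) + 2) := by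
  have h1 : (fun r => φ r / ((d : ℝ) + 2) / Real.log r) =
      fun r => (φ r / Real.log r) / ((d : ℝ) + 2) := by
    funext r
    rw [div_right_comm]
  change Tendsto _ atTop atTop
  rw [h1]
  exact Tendsto.atTop_div_const (by positivity) hφ

/-- A polynomial of a slow map, if it has no zeros, is a monomial. -/
theorem poly_mono {φ : ℝ → ℝ} {f : ℂ → Fin (n + 1) → ℂ} (hf : DifferentiableOn ℂ f {0}ᶜ)
    (hs : SlowL (fun r => min (φ r) (Real.sqrt r)) f) (G : MvPolynomial (Fin (n + 1)) ℂ)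
    (h0 : ∀ z, z ≠ 0 → eval (f z) G ≠ 0) :
    ∃ (b : ℂ) (k : ℤ), b ≠ 0 ∧ ∀ z, z ≠ 0 → eval (f z) G = b * z ^ k := by
  obtain ⟨A, k, hA, hb⟩ := poly_bound G
  refine unit_mono (diffOn_ev hf G) h0 (Real.log A) k fun R => ?_
  obtain ⟨r, hr, h1⟩ := hs (max R 1)
  have hr1 : 1 < r := (le_max_right _ _).trans_lt hr
  refine ⟨r, (le_max_left _ _).trans_lt hr, fun w hw1 hw2 => ?_⟩
  have hw0 : w ≠ 0 := by
    rintro rfl
    rw [norm_zero] at hw1
    have : 0 < r⁻¹ := by positivity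
    linarith
  have h2 : Real.log ‖f w‖ ≤ Real.sqrt r := (h1 w hw1 hw2).trans (min_le_right _ _)
  have h3 : Real.log (max 1 ‖f w‖) ≤ Real.sqrt r := by
    rcases le_total ‖f w‖ 1 with h | h
    · rw [max_eq_left h, Real.log_one]
      exact Real.sqrt_nonneg r
    · rw [max_eq_right h]
      exact h2
  have h4 : 0 < max 1 ‖f w‖ := lt_of_lt_of_le one_pos (le_max_left _ _)
  have h5 : 0 < ‖eval (f w) G‖ := norm_pos_iff.2 (h0 w hw0)
  calc Real.log ‖eval (f w) G‖ ≤ Real.log (A * max 1 ‖f w‖ ^ k) := Real.log_le_log h5 (hb _)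
    _ = Real.log A + k * Real.log (max 1 ‖f w‖) := by
        rw [Real.log_mul hA.ne' (pow_pos h4 k).ne', Real.log_pow]
    _ ≤ Real.log A + k * Real.sqrt r := by gcongr

/-- All nonconstant algebraic maps from the multiplicative group to `{F = 0, D ≠ 0}` have their
image in `{G = 0}`. -/
def AlgInU (F : ι → MvPolynomial (Fin (n + 1)) ℂ) (D : MvPolynomial (Fin (n + 1)) ℂ)
    (G : κ → MvPolynomial (Fin (n + 1)) ℂ) : Prop :=
  ∀ P : Fin (n + 1) → Polynomial ℂ, CurveL F D (pc P) → NC (pc P) →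
    ∀ z, z ≠ 0 → ∀ k, eval (pc P z) (G k) = 0

/-- All nonconstant holomorphic maps of growth `φ` from the punctured plane to `{F = 0, D ≠ 0}` have
their image in `{G = 0}`. -/
def SlowInU (φ : ℝ → ℝ) (F : ι → MvPolynomial (Fin (n + 1)) ℂ)
    (D : MvPolynomial (Fin (n + 1)) ℂ) (G : κ → MvPolynomial (Fin (n + 1)) ℂ) : Prop :=
  ∀ f : ℂ → Fin (n + 1) → ℂ, CurveL F D f → SlowL φ f → NC f →
    ∀ z, z ≠ 0 → ∀ k, eval (f z) (G k) = 0

/-- Laurent polynomials which satisfy the equations give algebraic maps. -/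
theorem alg_of_laur {F : ι → MvPolynomial (Fin (n + 1)) ℂ} (hF : ∀ i, ∃ e, (F i).IsHomogeneous e)
    {D : MvPolynomial (Fin (n + 1)) ℂ} {d : ℕ} (hD : D.IsHomogeneous d)
    (c : ℤ → Fin (n + 1) ⊕ Fin (n + 1) → ℂ) (N : ℕ)
    (hcF : ∀ z, z ≠ 0 → ∀ i, eval (fun j => lp c N z (Sum.inl j)) (F i) = 0)
    (hcD : ∀ z, z ≠ 0 → ∀ j, lp c N z (Sum.inr j) * eval (fun j => lp c N z (Sum.inl j)) D =
      lp c N z (Sum.inl j) ^ d) {za : ℂ} (hza : za ≠ 0)
    (hne : (fun j => lp c N za (Sum.inl j)) ≠ 0) :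
    ∃ (a : ℂ → ℂ) (P : Fin (n + 1) → Polynomial ℂ),
      (∀ z, z ≠ 0 → (fun j => lp c N z (Sum.inl j)) = a z • pc P z) ∧ CurveL F D (pc P) := by
  have hxP : ∀ z, z ≠ 0 → (fun j => lp c N z (Sum.inl j)) =
      (z ^ N)⁻¹ • pc (fun j => lpoly c N (Sum.inl j)) z := by
    intro z hz
    have hzD : z ^ N ≠ 0 := pow_ne_zero _ hz
    funext j
    simp only [Pi.smul_apply, smul_eq_mul, pc]
    rw [lpoly_eval c N _ hz, inv_mul_cancel_left₀ hzD]
  have hneP : pc (fun j : Fin (n + 1) => lpoly c N (Sum.inl j)) za ≠ 0 := by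
    intro h
    rw [hxP za hza, h, smul_zero] at hne
    exact hne rfl
  obtain ⟨q, P', hP', hq, hPn⟩ := clear (P := fun j => lpoly c N (Sum.inl j)) ⟨za, hneP⟩
  have hxP' : ∀ z, z ≠ 0 → (fun j => lp c N z (Sum.inl j)) =
      ((z ^ N)⁻¹ * q.eval z) • pc P' z := by
    intro z hz
    rw [hxP z hz]
    funext j
    simp only [Pi.smul_apply, smul_eq_mul, pc, hP' j, Polynomial.eval_mul]
    ring
  refine ⟨fun z => (z ^ N)⁻¹ * q.eval z, P', hxP', ?_⟩
  exact curve_of_eqs (x := fun z j => lp c N z (Sum.inl j)) (y := fun z j => lp c N z (Sum.inr j))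
    (a := fun z => (z ^ N)⁻¹ * q.eval z) (d := d) hF hD hq hPn (fun z hz hqz =>
      mul_ne_zero (inv_ne_zero (pow_ne_zero _ hz)) hqz) hxP' hcF
      (differentiableOn_pi.2 fun j => differentiableOn_pi.1 (lp_diff c N) (Sum.inr j)) hcD

/-- the equations of the family and of the inverse of `D` -/
noncomputable def eqs (F : ι → MvPolynomial (Fin (n + 1)) (MvPolynomial τ ℂ))
    (D : MvPolynomial (Fin (n + 1)) (MvPolynomial τ ℂ)) (d : ℕ) :
    ι ⊕ Fin (n + 1) → MvPolynomial (τ ⊕ (Fin (n + 1) ⊕ Fin (n + 1))) ℂ := Sum.elim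
    (fun i => big (Fin (n + 1)) (F i)) fun j =>
      X (Sum.inr (Sum.inr j)) * big (Fin (n + 1)) D - X (Sum.inr (Sum.inl j)) ^ d

theorem eqs_iff (F : ι → MvPolynomial (Fin (n + 1)) (MvPolynomial τ ℂ))
    (D : MvPolynomial (Fin (n + 1)) (MvPolynomial τ ℂ)) (d : ℕ) (t : τ → ℂ)
    (v : Fin (n + 1) ⊕ Fin (n + 1) → ℂ) :
    (∀ i, eval (Sum.elim t v) (eqs F D d i) = 0) ↔
      (∀ i, eval (fun j => v (Sum.inl j)) (mem t (F i)) = 0) ∧
      ∀ j, v (Sum.inr j) * eval (fun j => v (Sum.inl j)) (mem t D) = v (Sum.inl j) ^ d := by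
  constructor
  · intro h
    refine ⟨fun i => ?_, fun j => ?_⟩
    · have h1 := h (Sum.inl i)
      rwa [eqs, Sum.elim_inl, eval_big] at h1
    · have h1 := h (Sum.inr j)
      rw [eqs, Sum.elim_inr, map_sub, map_mul, map_pow, eval_X, eval_X, eval_big] at h1
      exact sub_eq_zero.1 h1
  · rintro ⟨h1, h2⟩ (i | j)
    · rw [eqs, Sum.elim_inl, eval_big]
      exact h1 i
    · rw [eqs, Sum.elim_inr, map_sub, map_mul, map_pow, eval_X, eval_X, eval_big]
      exact sub_eq_zero.2 (h2 j)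

/-- **One growth condition for all members of a family of quasi-projective varieties.** -/
theorem family_iff [Fintype τ] (F : ι → MvPolynomial (Fin (n + 1)) (MvPolynomial τ ℂ))
    (hF : ∀ i, ∃ e, (F i).IsHomogeneous e) (D : MvPolynomial (Fin (n + 1)) (MvPolynomial τ ℂ))
    (hD : ∃ d, D.IsHomogeneous d) (K : ℕ → Set (τ → ℂ)) (hK : ∀ l, IsClosed (K l)) :
    ∃ φ : ℝ → ℝ, Grows φ ∧ ∀ (κ : Type) (G : κ → MvPolynomial (Fin (n + 1)) (MvPolynomial τ ℂ)),
      (∀ k, ∃ e, (G k).IsHomogeneous e) →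
      ((∀ t ∈ ⋃ l, K l, AlgInU (fun i => mem t (F i)) (mem t D) fun k => mem t (G k)) ↔
        ∀ t ∈ ⋃ l, K l, SlowInU φ (fun i => mem t (F i)) (mem t D) fun k => mem t (G k)) := by
  obtain ⟨d, hD⟩ := hD
  obtain ⟨φ, hφ, happ⟩ := approx_fam (eqs F D d) K hK
  have hφ' : Grows fun r => min (φ r / ((d : ℝ) + 2)) (Real.sqrt r) := grows_min (grows_div hφ d)
  refine ⟨_, hφ', fun κ G hG => ⟨fun hA t ht f hf hs hnc z hz k0 => ?_, fun hS t ht P hP hnc =>
    hS t ht (pc P) hP (pc_slowL hφ' P) hnc⟩⟩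
  obtain ⟨l, hl⟩ := mem_iUnion.1 ht
  by_contra hzk
  obtain ⟨za, zb, hza, hzb, i0, j0, hij⟩ := hnc
  obtain ⟨b, k, hb, hbk⟩ := poly_mono hf.1 hs (mem t D) fun z hz => (hf.2 z hz).2.2
  have hbz : ∀ z : ℂ, z ≠ 0 → b * z ^ k ≠ 0 := fun z hz => mul_ne_zero hb (zpow_ne_zero k hz)
  obtain ⟨v, hv⟩ : ∃ v : ℂ → Fin (n + 1) ⊕ Fin (n + 1) → ℂ, v = fun z =>
    Sum.elim (f z) fun j => f z j ^ d / (b * z ^ k) := ⟨_, rfl⟩
  have hv1 : ∀ z j, v z (Sum.inl j) = f z j := fun z j => by rw [hv]; rfl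
  have hv2 : ∀ z j, v z (Sum.inr j) = f z j ^ d / (b * z ^ k) := fun z j => by rw [hv]; rfl
  have hv3 : ∀ z, (fun j => v z (Sum.inl j)) = f z := fun z => funext fun j => hv1 z j
  have hvd : DifferentiableOn ℂ v {0}ᶜ := by
    refine differentiableOn_pi.2 fun s => ?_
    rcases s with s | s
    · simp only [hv1]
      exact differentiableOn_pi.1 hf.1 s
    · simp only [hv2]
      refine ((differentiableOn_pi.1 hf.1 s).pow d).div ?_ fun z hz => hbz z hz
      refine DifferentiableOn.const_mul ?_ b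
      intro z hz
      exact (differentiableAt_zpow.2 (Or.inl hz)).differentiableWithinAt
  have hvs : SlowL φ v := by
    rw [hv]
    exact slow_pair hφ hb (fun z hz => (hf.2 z hz).1) hs
  have hvF : ∀ z, z ≠ 0 → ∀ i, eval (Sum.elim t (v z)) (eqs F D d i) = 0 := by
    intro z hz
    rw [eqs_iff, hv3]
    refine ⟨(hf.2 z hz).2.1, fun j => ?_⟩
    rw [hv1, hv2, hbk z hz, div_mul_cancel₀ _ (hbz z hz)]
  -- approximations
  obtain ⟨ρ, hρ, hin⟩ : ∃ ρ : ℝ, 0 < ρ ∧ ∀ y, y = za ∨ y = zb ∨ y = z → ρ⁻¹ ≤ ‖y‖ ∧ ‖y‖ ≤ ρ := by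
    have ha := norm_pos_iff.2 hza
    have hb := norm_pos_iff.2 hzb
    have hc := norm_pos_iff.2 hz
    refine ⟨‖za‖ + ‖zb‖ + ‖z‖ + ‖za‖⁻¹ + ‖zb‖⁻¹ + ‖z‖⁻¹, by positivity, fun y hy => ?_⟩
    have h1 := inv_pos.2 ha
    have h2 := inv_pos.2 hb
    have h3 := inv_pos.2 hc
    rcases hy with rfl | rfl | rfl
    · exact ⟨inv_le_of_inv_le₀ ha (by linarith), by linarith⟩
    · exact ⟨inv_le_of_inv_le₀ hb (by linarith), by linarith⟩
    · exact ⟨inv_le_of_inv_le₀ hc (by linarith), by linarith⟩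
  choose t' ht' c N hcF hct hcv using fun m : ℕ => happ l t hl v hvd hvF hvs ρ
    (1 / ((m : ℝ) + 1)) hρ (by positivity)
  have h0 : Tendsto (fun m : ℕ => 1 / ((m : ℝ) + 1)) atTop (𝓝 0) :=
    tendsto_one_div_add_atTop_nhds_zero_nat
  have htt : Tendsto t' atTop (𝓝 t) := by
    rw [tendsto_iff_norm_sub_tendsto_zero]
    exact squeeze_zero (fun k => norm_nonneg _) hct h0
  have hlim : ∀ y, (y = za ∨ y = zb ∨ y = z) →
      Tendsto (fun m => lp (c m) (N m) y) atTop (𝓝 (v y)) := by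
    intro y hy
    rw [tendsto_iff_norm_sub_tendsto_zero]
    exact squeeze_zero (fun k => norm_nonneg _) (fun m => hcv m y (hin y hy).1 (hin y hy).2) h0
  have ha := tendsto_pi_nhds.1 (hlim za (Or.inl rfl))
  have hb' := tendsto_pi_nhds.1 (hlim zb (Or.inr (Or.inl rfl)))
  have h1 := ((ha (Sum.inl i0)).mul (hb' (Sum.inl j0))).sub
    ((ha (Sum.inl j0)).mul (hb' (Sum.inl i0)))
  have h2 : Tendsto (fun m => eval (Sum.elim (t' m) (lp (c m) (N m) z))
      (big (Fin (n + 1)) (G k0))) atTop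
      (𝓝 (eval (Sum.elim t (v z)) (big (Fin (n + 1)) (G k0)))) :=
    fam_tendsto htt (hlim z (Or.inr (Or.inr rfl))) _
  have hzk' : eval (Sum.elim t (v z)) (big (Fin (n + 1)) (G k0)) ≠ 0 := by
    rw [eval_big, hv3]
    exact hzk
  have hij' : v za (Sum.inl i0) * v zb (Sum.inl j0) - v za (Sum.inl j0) * v zb (Sum.inl i0) ≠ 0 := by
    rw [hv1, hv1, hv1, hv1]
    exact sub_ne_zero.2 hij
  obtain ⟨m, hm1, hm2⟩ := ((h1.eventually_ne hij').and (h2.eventually_ne hzk')).exists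
  have hne : (fun j : Fin (n + 1) => lp (c m) (N m) za (Sum.inl j)) ≠ 0 := by
    intro h
    apply hm1
    have h3 : ∀ j, lp (c m) (N m) za (Sum.inl j) = 0 := fun j => congrFun h j
    rw [h3, h3, zero_mul, zero_mul, sub_self]
  have hcF1 := fun z (hz : z ≠ 0) => (eqs_iff F D d (t' m) (lp (c m) (N m) z)).1 (hcF m z hz)
  obtain ⟨a, P', hxP', hcurve⟩ := alg_of_laur (F := fun i => mem (t' m) (F i))
    (fun i => (hF i).imp fun e he => he.map _) (hD.map (eval (t' m))) (c m) (N m)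
    (fun z hz => (hcF1 z hz).1) (fun z hz => (hcF1 z hz).2) hza hne
  have hncP : NC (pc P') := by
    refine ⟨za, zb, hza, hzb, i0, j0, fun h => hm1 ?_⟩
    have h3 : ∀ j, lp (c m) (N m) za (Sum.inl j) = a za * pc P' za j :=
      fun j => congrFun (hxP' za hza) j
    have h4 : ∀ j, lp (c m) (N m) zb (Sum.inl j) = a zb * pc P' zb j :=
      fun j => congrFun (hxP' zb hzb) j
    rw [h3, h3, h4, h4]
    linear_combination (a za * a zb) * h
  have hfin := hA (t' m) (mem_iUnion.2 ⟨l, ht' m⟩) P' hcurve hncP z hz k0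
  obtain ⟨e, he⟩ := hG k0
  apply hm2
  have h5 : mem (t' m) (G k0) = map (eval (t' m)) (G k0) := rfl
  rw [eval_big, hxP' z hz, h5, eval_smul_form (he.map _), ← h5, hfin, mul_zero]

end Pool.Agent.Run7.h346.GF
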