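import Pool.Agent.Run7.h346.GF.Meas

/-!
The strata of generic divisors on a projective variety and holomorphic maps of slow growth from the
punctured plane.
-/

set_option autoImplicit false

namespace Pool.Agent.Run7.h346.GF

open Filter Topology Metric Set MvPolynomial MeasureTheory
open Pool.Agent.R871.SG Pool.Agent.N634.SH
open Pool.Agent.TH143 (IsGmCurve On)
open Pool.Agent.TH182.VD (CI)

variable {n q : ℕ} {κ : Type}

instance finite_ci (n e : ℕ) : Finite {α : Fin (n + 1) →₀ ℕ // α.degree = e} := by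
  have h1 : {m : Fin (n + 1) →₀ ℕ | m.degree = e}.Finite := by
    refine (Finsupp.finite_of_degree_le e).subset ?_
    intro m hm
    exact le_of_eq hm
  exact h1

/-- the monomials of degree `e` -/
noncomputable instance fintype_ci (n e : ℕ) : Fintype {α : Fin (n + 1) →₀ ℕ // α.degree = e} :=
  Fintype.ofFinite _

/-- The form of degree `d i` with the coefficients `c`. -/
noncomputable def frm (d : Fin q → ℕ)
    (c : (i : Fin q) × {α : Fin (n + 1) →₀ ℕ // α.degree = d i} → ℂ) (i : Fin q) :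
    MvPolynomial (Fin (n + 1)) ℂ :=
  ∑ α : {α : Fin (n + 1) →₀ ℕ // α.degree = d i}, monomial α.1 (c ⟨i, α⟩)

theorem frm_homog (d : Fin q → ℕ)
    (c : (i : Fin q) × {α : Fin (n + 1) →₀ ℕ // α.degree = d i} → ℂ) (i : Fin q) :
    (frm d c i).IsHomogeneous (d i) :=
  IsHomogeneous.sum _ _ _ fun α _ => isHomogeneous_monomial _ α.2

theorem coeff_frm (d : Fin q → ℕ)
    (c : (i : Fin q) × {α : Fin (n + 1) →₀ ℕ // α.degree = d i} → ℂ) (i : Fin q)
    (α : {α : Fin (n + 1) →₀ ℕ // α.degree = d i}) : coeff α.1 (frm d c i) = c ⟨i, α⟩ := by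
  classical
  rw [frm, coeff_sum, Finset.sum_eq_single α]
  · rw [coeff_monomial, if_pos rfl]
  · intro β _ hβ
    rw [coeff_monomial, if_neg fun h => hβ (Subtype.ext h)]
  · intro h
    exact absurd (Finset.mem_univ _) h

/-- the universal form of degree `d i` -/
noncomputable def ufrm (d : Fin q → ℕ) (i : Fin q) : MvPolynomial (Fin (n + 1))
    (MvPolynomial ((i : Fin q) × {α : Fin (n + 1) →₀ ℕ // α.degree = d i}) ℂ) :=
  ∑ α : {α : Fin (n + 1) →₀ ℕ // α.degree = d i}, monomial α.1 (X ⟨i, α⟩)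

theorem ufrm_homog (d : Fin q → ℕ) (i : Fin q) : (ufrm (n := n) d i).IsHomogeneous (d i) :=
  IsHomogeneous.sum _ _ _ fun α _ => isHomogeneous_monomial _ α.2

theorem mem_ufrm (d : Fin q → ℕ)
    (c : (i : Fin q) × {α : Fin (n + 1) →₀ ℕ // α.degree = d i} → ℂ) (i : Fin q) :
    mem c (ufrm d i) = frm d c i := by
  simp only [mem, ufrm, map_sum, map_monomial, eval_X, frm]

/-- the equations of the closures of the strata -/
noncomputable def eqU (G : κ → MvPolynomial (Fin (n + 1)) ℂ) (d : Fin q → ℕ) (Z : Finset (Fin q)) :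
    κ ⊕ {i // i ∈ Z} → MvPolynomial (Fin (n + 1))
      (MvPolynomial ((i : Fin q) × {α : Fin (n + 1) →₀ ℕ // α.degree = d i}) ℂ) :=
  Sum.elim (fun k => map C (G k)) fun i => ufrm d i.1

/-- the product of the other forms -/
noncomputable def prU (n : ℕ) (d : Fin q → ℕ) (Z : Finset (Fin q)) : MvPolynomial (Fin (n + 1))
      (MvPolynomial ((i : Fin q) × {α : Fin (n + 1) →₀ ℕ // α.degree = d i}) ℂ) :=
  ∏ i ∈ Finset.univ \ Z, ufrm d i

theorem mem_eqU (G : κ → MvPolynomial (Fin (n + 1)) ℂ) (d : Fin q → ℕ) (Z : Finset (Fin q))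
    (c : (i : Fin q) × {α : Fin (n + 1) →₀ ℕ // α.degree = d i} → ℂ) :
    (fun i => mem c (eqU G d Z i)) = Sum.elim G fun i : {i // i ∈ Z} => frm d c i.1 := by
  funext x
  rcases x with k | i
  · simp only [mem, eqU, Sum.elim_inl, MvPolynomial.map_map]
    have h1 : (eval c).comp (C : ℂ →+* _) = RingHom.id ℂ := by
      ext a
      simp
    rw [h1, MvPolynomial.map_id]
  · exact mem_ufrm d c i.1

theorem mem_prU (n : ℕ) (d : Fin q → ℕ) (Z : Finset (Fin q))
    (c : (i : Fin q) × {α : Fin (n + 1) →₀ ℕ // α.degree = d i} → ℂ) :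
    mem c (prU n d Z) = ∏ i ∈ Finset.univ \ Z, frm d c i := by
  rw [mem, prU, map_prod]
  exact Finset.prod_congr rfl fun i _ => mem_ufrm d c i

theorem eqU_homog {G : κ → MvPolynomial (Fin (n + 1)) ℂ} (hG : ∀ k, ∃ e, (G k).IsHomogeneous e)
    (d : Fin q → ℕ) (Z : Finset (Fin q)) (x : κ ⊕ {i // i ∈ Z}) :
    ∃ e, (eqU G d Z x).IsHomogeneous e := by
  rcases x with k | i
  · obtain ⟨e, he⟩ := hG k
    exact ⟨e, he.map _⟩
  · exact ⟨d i.1, ufrm_homog d i.1⟩

theorem prU_homog (n : ℕ) (d : Fin q → ℕ) (Z : Finset (Fin q)) :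
    ∃ e, (prU n d Z).IsHomogeneous e :=
  ⟨_, IsHomogeneous.prod _ _ _ fun i _ => ufrm_homog d i⟩

/-- Countably many polynomial conditions for algebraic independence. -/
theorem very_gen (k₁ : Subfield ℂ) [Countable k₁] (d : Fin q → ℕ) :
    ∃ Φ : ℕ → MvPolynomial (CI n d) ℂ, (∀ N, Φ N ≠ 0) ∧ ∀ c : CI n d → ℂ,
      (∀ N, eval c (Φ N) ≠ 0) → AlgebraicIndependent k₁ c := by
  classical
  have hc : Countable (MvPolynomial (CI n d) k₁) := by
    have := Finite.to_countable (α := CI n d)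
    rw [← Cardinal.mk_le_aleph0_iff]
    refine MvPolynomial.cardinalMk_le_max.trans ?_
    rw [max_le_iff, max_le_iff]
    exact ⟨⟨Cardinal.mk_le_aleph0, Cardinal.mk_le_aleph0⟩, le_rfl⟩
  let T : Type := {Φ : MvPolynomial (CI n d) k₁ // Φ ≠ 0}
  have : Nonempty T := ⟨⟨1, one_ne_zero⟩⟩
  obtain ⟨e, he⟩ := exists_surjective_nat T
  refine ⟨fun N => map (algebraMap k₁ ℂ) (e N).1, fun N => ?_, fun c hc => ?_⟩
  · exact (map_ne_zero_iff _ (map_injective _ (algebraMap k₁ ℂ).injective)).2 (e N).2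
  · rw [algebraicIndependent_iff]
    intro P hP
    by_contra hP0
    obtain ⟨j, hj⟩ := he ⟨P, hP0⟩
    apply hc j
    change eval c (map (algebraMap k₁ ℂ) (e j).1) = 0
    rw [hj, eval_map, ← aeval_def]
    exact hP

/-- **Generic strata and slow maps from the punctured plane.** -/
theorem strata_main (G : κ → MvPolynomial (Fin (n + 1)) ℂ) (hG : ∀ k, ∃ e, (G k).IsHomogeneous e)
    {m : ℕ}
    (hdim : Algebra.trdeg ℂ (MvPolynomial (Fin (n + 1)) ℂ ⧸ Ideal.span (Set.range G)) ≤ m + 1)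
    (q : ℕ) (d : Fin q → ℕ) (Z : Finset (Fin q)) (hZ : 2 * m + 1 ≤ ∑ i, d i + Z.card) :
    ∃ Φ : ℕ → MvPolynomial (CI n d) ℂ, (∀ N, Φ N ≠ 0) ∧
      (∀ K : ℕ → Set (CI n d → ℂ), (∀ l, IsClosed (K l)) →
        (∀ l, ∀ c ∈ K l, ∀ N, eval c (Φ N) ≠ 0) →
        ∃ φ : ℝ → ℝ, Grows φ ∧ ∀ l, ∀ c ∈ K l, ¬ HasSlowU φ (eqU G d Z) (prU n d Z) c) ∧
      ∃ φ : ℝ → ℝ, Grows φ ∧ ∀ᵐ c : CI n d → ℂ, ¬ HasSlowU φ (eqU G d Z) (prU n d Z) c := by
  obtain ⟨k₁, hk₁, hmain⟩ := Pool.Agent.TH182.VD.main (m := m) G hG hdim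
  obtain ⟨Φ, hΦ0, hΦ⟩ := very_gen (n := n) k₁ d
  have hno : ∀ c : CI n d → ℂ, (∀ N, eval c (Φ N) ≠ 0) →
      ¬ HasAlg (eqU G d Z) (prU n d Z) c := by
    rintro c hc ⟨P, hP, hnc⟩
    rw [mem_eqU, mem_prU] at hP
    have hind : AlgebraicIndependent k₁ (fun x : CI n d => coeff x.2.1 (frm d c x.1)) := by
      have h1 : (fun x : CI n d => coeff x.2.1 (frm d c x.1)) = c := by
        funext x
        exact coeff_frm d c x.1 x.2
      rw [h1]
      exact hΦ c hc
    refine hmain q d (frm d c) (frm_homog d c) hind Z hZ P ⟨fun t ht => ?_, fun t ht => ?_, ?_⟩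
    · by_contra hcon
      push Not at hcon
      exact (hP.2 t ht).1 (funext hcon)
    · exact ⟨(hP.2 t ht).2.1, (hP.2 t ht).2.2⟩
    · obtain ⟨z, w, hz, hw, i, j, hij⟩ := hnc
      exact ⟨z, w, hz, hw, i, j, hij⟩
  refine ⟨Φ, hΦ0, fun K hK hKΦ => closed_members _ (eqU_homog hG d Z) _ (prU_homog n d Z) K hK
    fun l c hc => hno c (hKΦ l c hc), ?_⟩
  refine (measure_members _ (eqU_homog hG d Z) _ (prU_homog n d Z) volume).1 ?_
  have hae : ∀ᵐ c : CI n d → ℂ, ∀ N, eval c (Φ N) ≠ 0 := by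
    rw [ae_all_iff]
    intro N
    rw [ae_iff]
    have h4 := Pool.Agent.R845.US.poly_null (Φ N) (hΦ0 N)
    simpa using h4
  filter_upwards [hae] with c hc
  exact hno c hc

end Pool.Agent.Run7.h346.GF
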