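import Pool.Agent.Run7.h346.GF.Fam
import Pool.Agent.N634.SH.Gen

/-!
Families of quasi-projective varieties: almost all members.
-/

set_option autoImplicit false

namespace Pool.Agent.Run7.h346.GF

open Filter Topology Metric Set MvPolynomial MeasureTheory
open scoped ENNReal
open Pool.Agent.R871.SG Pool.Agent.N634.SH

variable {n : ℕ} {τ ι κ : Type}

theorem closed_cover' [Fintype τ] (μ : Measure (τ → ℂ)) [IsFiniteMeasureOnCompacts μ]
    (W : Set (τ → ℂ)) (hW : MeasurableSet W) (h0 : μ Wᶜ = 0) :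
    ∃ K : ℕ → Set (τ → ℂ), (∀ l, IsClosed (K l)) ∧ (∀ l, K l ⊆ W) ∧ ∀ᵐ c ∂μ, ∃ l, c ∈ K l := by
  have h1 : ∀ k m : ℕ, ∃ F : Set (τ → ℂ), F ⊆ W ∩ Metric.closedBall 0 (k : ℝ) ∧ IsClosed F ∧
      μ ((W ∩ Metric.closedBall 0 (k : ℝ)) \ F) < ((m : ℝ≥0∞) + 1)⁻¹ := by
    intro k m
    refine (hW.inter Metric.isClosed_closedBall.measurableSet).exists_isClosed_sdiff_lt ?_ ?_
    · exact ne_top_of_le_ne_top
        ((isCompact_closedBall (0 : τ → ℂ) (k : ℝ)).measure_lt_top (μ := μ)).ne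
        (measure_mono inter_subset_right)
    · rw [Ne, ENNReal.inv_eq_zero]
      exact ENNReal.add_ne_top.2 ⟨ENNReal.natCast_ne_top m, ENNReal.one_ne_top⟩
  choose F hF1 hF2 hF3 using h1
  refine ⟨fun l => F (Nat.unpair l).1 (Nat.unpair l).2, fun l => hF2 _ _,
    fun l => (hF1 _ _).trans inter_subset_left, ?_⟩
  rw [ae_iff]
  have h2 : {c : τ → ℂ | ¬ ∃ l, c ∈ F (Nat.unpair l).1 (Nat.unpair l).2} ⊆
      Wᶜ ∪ ⋃ k : ℕ, ⋂ m : ℕ, (W ∩ Metric.closedBall 0 (k : ℝ)) \ F k m := by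
    intro c hc
    by_cases hcW : c ∈ W
    · right
      obtain ⟨k, hk⟩ := exists_nat_ge (dist c 0)
      refine mem_iUnion.2 ⟨k, mem_iInter.2 fun m => ⟨⟨hcW, hk⟩, fun hcF => hc ?_⟩⟩
      exact ⟨Nat.pair k m, by rw [Nat.unpair_pair]; exact hcF⟩
    · left
      exact hcW
  refine measure_mono_null h2 (measure_union_null h0 (measure_iUnion_null fun k => ?_))
  have h3 : ∀ m : ℕ, μ (⋂ m : ℕ, (W ∩ Metric.closedBall 0 (k : ℝ)) \ F k m) ≤
      ((m : ℝ≥0∞) + 1)⁻¹ := fun m =>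
    (measure_mono (iInter_subset _ m)).trans (hF3 k m).le
  refine le_antisymm (ENNReal.le_of_forall_pos_le_add fun ε hε _ => ?_) bot_le
  obtain ⟨m, hm⟩ := ENNReal.exists_inv_nat_lt (ENNReal.coe_pos.2 hε).ne'
  rw [zero_add]
  refine (h3 m).trans ((ENNReal.inv_le_inv.2 ?_).trans hm.le)
  exact le_self_add

/-- The members depend continuously on the parameters. -/
theorem cont_mem {T : Type} [TopologicalSpace T] {t : T → τ → ℂ} (ht : Continuous t)
    {x : T → Fin (n + 1) → ℂ} (hx : Continuous x)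
    (F : MvPolynomial (Fin (n + 1)) (MvPolynomial τ ℂ)) :
    Continuous fun p => eval (x p) (mem (t p) F) := by
  have h : ∀ p, eval (x p) (mem (t p) F) =
      eval (Sum.elim (t p) (Sum.elim (x p) (Fin.elim0 : Fin 0 → ℂ))) (big (Fin 0) F) := by
    intro p
    rw [eval_big]
    rfl
  simp only [h]
  refine (MvPolynomial.continuous_eval (big (Fin 0) F)).comp (continuous_pi fun i => ?_)
  rcases i with i | i | i
  · exact (continuous_apply i).comp ht
  · exact (continuous_apply i).comp hx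
  · exact i.elim0

/-- polynomials without zeros outside the origin are monomials -/
theorem mono_poly (p : Polynomial ℂ) (hp : ∀ z, z ≠ 0 → p.eval z ≠ 0) :
    ∃ (b : ℂ) (k : ℕ), b ≠ 0 ∧ ∀ z, p.eval z = b * z ^ k := by
  have hp0 : p ≠ 0 := by
    rintro rfl
    exact hp 1 one_ne_zero (by simp)
  obtain ⟨r, hr, hrd⟩ := Polynomial.exists_eq_pow_rootMultiplicity_mul_and_not_dvd p hp0 0
  set k := Polynomial.rootMultiplicity 0 p with hk
  have hr0 : r.eval 0 ≠ 0 := by
    intro h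
    exact hrd (Polynomial.dvd_iff_isRoot.2 h)
  have hrn : ∀ z, r.eval z ≠ 0 := by
    intro z hz
    rcases eq_or_ne z 0 with rfl | hz0
    · exact hr0 hz
    · refine hp z hz0 ?_
      rw [hr, Polynomial.eval_mul, hz, mul_zero]
  have hdeg : r.degree = 0 := by
    by_contra h
    obtain ⟨z, hz⟩ := IsAlgClosed.exists_root r h
    exact hrn z hz
  obtain ⟨b, hb⟩ : ∃ b, r = Polynomial.C b := ⟨_, Polynomial.eq_C_of_degree_eq_zero hdeg⟩
  refine ⟨b, k, ?_, fun z => ?_⟩
  · rintro rfl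
    rw [hb, Polynomial.eval_C] at hr0
    exact hr0 rfl
  · have h := congrArg (Polynomial.eval z) hr
    rw [h, hb, Polynomial.eval_mul, Polynomial.eval_pow, Polynomial.eval_sub, Polynomial.eval_X,
      Polynomial.eval_C, Polynomial.eval_C, sub_zero, mul_comm]

/-- The member with the parameters `t` contains an image of the multiplicative group. -/
def HasAlg (F : ι → MvPolynomial (Fin (n + 1)) (MvPolynomial τ ℂ))
    (D : MvPolynomial (Fin (n + 1)) (MvPolynomial τ ℂ)) (t : τ → ℂ) : Prop :=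
  ∃ P : Fin (n + 1) → Polynomial ℂ, CurveL (fun i => mem t (F i)) (mem t D) (pc P) ∧ NC (pc P)

/-- the value of a polynomial with the coefficients `a` -/
def evp {N : ℕ} (a : Fin (N + 1) → Fin (n + 1) → ℂ) (u : ℂ) : Fin (n + 1) → ℂ :=
  fun j => ∑ m : Fin (N + 1), a m j * u ^ (m : ℕ)

/-- the parameters, the coefficients, the leading coefficient and two points -/
abbrev Sp (n N : ℕ) (τ : Type) : Type :=
  (τ → ℂ) × ((Fin (N + 1) → Fin (n + 1) → ℂ) × (ℂ × (ℂ × ℂ)))

/-- members with algebraic maps with bounds -/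
def SS [Fintype τ] (F : ι → MvPolynomial (Fin (n + 1)) (MvPolynomial τ ℂ))
    (D : MvPolynomial (Fin (n + 1)) (MvPolynomial τ ℂ)) (N k : ℕ) : Set (Sp n N τ) :=
  closedBall (0 : Sp n N τ) ((N : ℝ) + 1) ∩ ({p | 1 / ((N : ℝ) + 1) ≤ ‖p.2.2.1‖} ∩
    ({p | 1 / ((N : ℝ) + 1) ≤ ‖p.2.2.2.1‖} ∩ ({p | 1 / ((N : ℝ) + 1) ≤ ‖p.2.2.2.2‖} ∩
    ((⋂ u : {u : ℂ // u ≠ 0}, ⋂ i, {p | eval (evp p.2.1 u.1) (mem p.1 (F i)) = 0}) ∩
    ((⋂ u : {u : ℂ // u ≠ 0}, {p | eval (evp p.2.1 u.1) (mem p.1 D) = p.2.2.1 * u.1 ^ k}) ∩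
    {p | 1 / ((N : ℝ) + 1) ≤ ∑ i, ∑ j, ‖evp p.2.1 p.2.2.2.1 i * evp p.2.1 p.2.2.2.2 j -
      evp p.2.1 p.2.2.2.1 j * evp p.2.1 p.2.2.2.2 i‖})))))

theorem cont_evp {X : Type} [TopologicalSpace X] {N : ℕ} {a : X → Fin (N + 1) → Fin (n + 1) → ℂ}
    (ha : Continuous a) {u : X → ℂ} (hu : Continuous u) : Continuous fun x => evp (a x) (u x) := by
  refine continuous_pi fun j => continuous_finsetSum _ fun m _ => ?_
  exact (continuous_apply_apply m j |>.comp ha).mul (hu.pow _)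

theorem ss_compact [Fintype τ] (F : ι → MvPolynomial (Fin (n + 1)) (MvPolynomial τ ℂ))
    (D : MvPolynomial (Fin (n + 1)) (MvPolynomial τ ℂ)) (N k : ℕ) : IsCompact (SS F D N k) := by
  have ha : Continuous fun p : Sp n N τ => p.2.1 := continuous_fst.comp continuous_snd
  have hb : Continuous fun p : Sp n N τ => p.2.2.1 :=
    continuous_fst.comp (continuous_snd.comp continuous_snd)
  have hz : Continuous fun p : Sp n N τ => p.2.2.2.1 :=
    continuous_fst.comp (continuous_snd.comp (continuous_snd.comp continuous_snd))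
  have hw : Continuous fun p : Sp n N τ => p.2.2.2.2 :=
    continuous_snd.comp (continuous_snd.comp (continuous_snd.comp continuous_snd))
  have hev : ∀ (G : MvPolynomial (Fin (n + 1)) (MvPolynomial τ ℂ)) (u : ℂ),
      Continuous fun p : Sp n N τ => eval (evp p.2.1 u) (mem p.1 G) := fun G u =>
    cont_mem continuous_fst (cont_evp ha continuous_const) G
  have c1 : IsClosed {p : Sp n N τ | 1 / ((N : ℝ) + 1) ≤ ‖p.2.2.1‖} :=
    isClosed_le continuous_const hb.norm
  have c2 : IsClosed {p : Sp n N τ | 1 / ((N : ℝ) + 1) ≤ ‖p.2.2.2.1‖} :=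
    isClosed_le continuous_const hz.norm
  have c3 : IsClosed {p : Sp n N τ | 1 / ((N : ℝ) + 1) ≤ ‖p.2.2.2.2‖} :=
    isClosed_le continuous_const hw.norm
  have c4 : IsClosed (⋂ u : {u : ℂ // u ≠ 0}, ⋂ i,
      {p : Sp n N τ | eval (evp p.2.1 u.1) (mem p.1 (F i)) = 0}) :=
    isClosed_iInter fun u => isClosed_iInter fun i => isClosed_eq (hev (F i) u.1) continuous_const
  have c5 : IsClosed (⋂ u : {u : ℂ // u ≠ 0},
      {p : Sp n N τ | eval (evp p.2.1 u.1) (mem p.1 D) = p.2.2.1 * u.1 ^ k}) :=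
    isClosed_iInter fun u => isClosed_eq (hev D u.1) (hb.mul continuous_const)
  have h1 : ∀ i, Continuous fun p : Sp n N τ => evp p.2.1 p.2.2.2.1 i := fun i =>
    (continuous_apply i).comp (cont_evp ha hz)
  have h2 : ∀ i, Continuous fun p : Sp n N τ => evp p.2.1 p.2.2.2.2 i := fun i =>
    (continuous_apply i).comp (cont_evp ha hw)
  have c6 : IsClosed {p : Sp n N τ | 1 / ((N : ℝ) + 1) ≤ ∑ i, ∑ j,
      ‖evp p.2.1 p.2.2.2.1 i * evp p.2.1 p.2.2.2.2 j -
      evp p.2.1 p.2.2.2.1 j * evp p.2.1 p.2.2.2.2 i‖} :=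
    isClosed_le continuous_const (continuous_finsetSum _ fun i _ => continuous_finsetSum _
      fun j _ => (((h1 i).mul (h2 j)).sub ((h1 j).mul (h2 i))).norm)
  exact (isCompact_closedBall _ _).inter_right
    (c1.inter (c2.inter (c3.inter (c4.inter (c5.inter c6)))))

theorem hasAlg_iff [Fintype τ] (F : ι → MvPolynomial (Fin (n + 1)) (MvPolynomial τ ℂ))
    (hF : ∀ i, ∃ e, (F i).IsHomogeneous e) (D : MvPolynomial (Fin (n + 1)) (MvPolynomial τ ℂ))
    (hD : ∃ d, D.IsHomogeneous d) :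
    {t | HasAlg F D t} = ⋃ N : ℕ, ⋃ k : ℕ, Prod.fst '' (SS F D N k) := by
  ext t
  rw [mem_iUnion]
  constructor
  · rintro ⟨P, hP, z, w, hz, hw, i0, j0, hij⟩
    obtain ⟨b, k, hb, hbk⟩ := mono_poly (aeval P (mem t D)) fun u hu => by
      rw [eval_pc]
      exact (hP.2 u hu).2.2
    simp only [eval_pc] at hbk
    set M : ℝ := ∑ i, ∑ j, ‖pc P z i * pc P w j - pc P z j * pc P w i‖ with hM
    have hM0 : 0 < M := by
      refine lt_of_lt_of_le (norm_pos_iff.2 (sub_ne_zero.2 hij)) ?_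
      refine (Finset.single_le_sum (f := fun j => ‖pc P z i0 * pc P w j - pc P z j * pc P w i0‖)
        (fun j _ => norm_nonneg _) (Finset.mem_univ j0)).trans ?_
      exact Finset.single_le_sum
        (f := fun i => ∑ j, ‖pc P z i * pc P w j - pc P z j * pc P w i‖)
        (fun i _ => Finset.sum_nonneg fun j _ => norm_nonneg _) (Finset.mem_univ i0)
    obtain ⟨N1, hN1⟩ := exists_nat_ge (‖t‖ + (∑ j, ∑ m ∈ Finset.range ((P j).natDegree + 1),
      ‖(P j).coeff m‖) + ‖b‖ + ‖z‖ + ‖w‖ + ‖b‖⁻¹ + ‖z‖⁻¹ + ‖w‖⁻¹ + M⁻¹)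
    set N : ℕ := N1 + ∑ j, (P j).natDegree with hN
    have hNN : (N1 : ℝ) ≤ (N : ℝ) + 1 := by
      rw [hN]
      push_cast
      have : (0 : ℝ) ≤ ∑ j, ((P j).natDegree : ℝ) := Finset.sum_nonneg fun j _ => Nat.cast_nonneg _
      linarith
    have hc0 : 0 ≤ ∑ j, ∑ m ∈ Finset.range ((P j).natDegree + 1), ‖(P j).coeff m‖ :=
      Finset.sum_nonneg fun j _ => Finset.sum_nonneg fun m _ => norm_nonneg _
    have hb0 : 0 < ‖b‖ := norm_pos_iff.2 hb
    have hz0 : 0 < ‖z‖ := norm_pos_iff.2 hz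
    have hw0 : 0 < ‖w‖ := norm_pos_iff.2 hw
    have hb1 := inv_pos.2 hb0
    have hz1 := inv_pos.2 hz0
    have hw1 := inv_pos.2 hw0
    have hM1 := inv_pos.2 hM0
    have ht0 := norm_nonneg t
    have hNp : (0 : ℝ) < (N : ℝ) + 1 := by positivity
    have hinv : ∀ x : ℝ, 0 < x → x⁻¹ ≤ (N : ℝ) + 1 → 1 / ((N : ℝ) + 1) ≤ x := by
      intro x hx h
      rw [one_div]
      exact inv_le_of_inv_le₀ hx h
    have hev : ∀ u, evp (fun (m : Fin (N + 1)) j => (P j).coeff m) u = pc P u := by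
      intro u
      funext j
      simp only [evp, pc]
      have hdj : (P j).natDegree < N + 1 := by
        have := Finset.single_le_sum (f := fun j => (P j).natDegree) (fun j _ => Nat.zero_le _)
          (Finset.mem_univ j)
        omega
      rw [Polynomial.eval_eq_sum_range' hdj, Finset.sum_range]
    refine ⟨N, mem_iUnion.2 ⟨k, ⟨(t, ((fun m j => (P j).coeff m), (b, (z, w)))), ?_, rfl⟩⟩⟩
    refine ⟨?_, hinv _ hb0 (by linarith), hinv _ hz0 (by linarith), hinv _ hw0 (by linarith),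
      mem_iInter.2 fun u => mem_iInter.2 fun i => ?_, mem_iInter.2 fun u => ?_, ?_⟩
    · rw [mem_closedBall_zero_iff]
      refine (Prod.norm_def _).trans_le (max_le (by linarith) ?_)
      refine (Prod.norm_def _).trans_le (max_le ?_ ?_)
      · refine (pi_norm_le_iff_of_nonneg hNp.le).2 fun m => ?_
        refine (pi_norm_le_iff_of_nonneg hNp.le).2 fun j => ?_
        have h1 : ‖(P j).coeff m‖ ≤
            ∑ m ∈ Finset.range ((P j).natDegree + 1), ‖(P j).coeff m‖ := by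
          by_cases hm : (m : ℕ) < (P j).natDegree + 1
          · exact Finset.single_le_sum (f := fun m => ‖(P j).coeff m‖)
              (fun m _ => norm_nonneg _) (Finset.mem_range.2 hm)
          · rw [Polynomial.coeff_eq_zero_of_natDegree_lt (by omega), norm_zero]
            exact Finset.sum_nonneg fun m _ => norm_nonneg _
        have h2 := Finset.single_le_sum
          (f := fun j => ∑ m ∈ Finset.range ((P j).natDegree + 1), ‖(P j).coeff m‖)
          (fun j _ => Finset.sum_nonneg fun m _ => norm_nonneg _) (Finset.mem_univ j)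
        linarith
      · refine (Prod.norm_def _).trans_le (max_le ?_ ?_)
        · change ‖b‖ ≤ _
          linarith
        · refine (Prod.norm_def _).trans_le (max_le ?_ ?_)
          · change ‖z‖ ≤ _
            linarith
          · change ‖w‖ ≤ _
            linarith
    · change eval (evp _ u.1) _ = 0
      rw [hev]
      exact (hP.2 u.1 u.2).2.1 i
    · change eval (evp _ u.1) _ = _
      rw [hev]
      exact hbk u.1
    · change 1 / ((N : ℝ) + 1) ≤ ∑ i, ∑ j, ‖evp _ z i * evp _ w j - evp _ z j * evp _ w i‖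
      rw [hev, hev]
      exact hinv _ hM0 (by linarith)
  · rintro ⟨N, h⟩
    obtain ⟨k, ⟨t', a, b, z, w⟩, ⟨-, hb, hz, hw, h1, h2, h3⟩, rfl⟩ := mem_iUnion.1 h
    have hNp : (0 : ℝ) < 1 / ((N : ℝ) + 1) := by positivity
    have hb0 : b ≠ 0 := norm_pos_iff.1 (hNp.trans_le hb)
    have hz0 : z ≠ 0 := norm_pos_iff.1 (hNp.trans_le hz)
    have hw0 : w ≠ 0 := norm_pos_iff.1 (hNp.trans_le hw)
    obtain ⟨i0, j0, hij⟩ : ∃ i j, evp a z i * evp a w j - evp a z j * evp a w i ≠ 0 := by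
      by_contra hcon
      push Not at hcon
      have h4 : 1 / ((N : ℝ) + 1) ≤ ∑ i, ∑ j, ‖evp a z i * evp a w j - evp a z j * evp a w i‖ := h3
      simp only [hcon, norm_zero, Finset.sum_const_zero] at h4
      linarith
    set P : Fin (n + 1) → Polynomial ℂ := fun j =>
      ∑ m : Fin (N + 1), Polynomial.C (a m j) * Polynomial.X ^ (m : ℕ) with hP
    have hPe : ∀ u, pc P u = evp a u := by
      intro u
      funext j
      simp only [pc, hP, evp, Polynomial.eval_finsetSum, Polynomial.eval_mul, Polynomial.eval_C,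
        Polynomial.eval_pow, Polynomial.eval_X]
    have hne : pc P z ≠ 0 := by
      intro h4
      rw [hPe] at h4
      apply hij
      rw [h4]
      simp
    obtain ⟨q, P', hP', hq, hPn⟩ := clear (P := P) ⟨z, hne⟩
    have hx : ∀ u, pc P u = q.eval u • pc P' u := by
      intro u
      funext j
      simp only [Pi.smul_apply, smul_eq_mul, pc, hP' j, Polynomial.eval_mul]
    obtain ⟨d, hD⟩ := hD
    refine ⟨P', ?_, z, w, hz0, hw0, i0, j0, fun h4 => hij ?_⟩
    · refine curve_of_eqs (d := d) (x := pc P) (a := fun u => q.eval u)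
        (y := fun u j => pc P u j ^ d / (b * u ^ k)) (fun i => (hF i).imp fun e he => he.map _)
        (hD.map (eval t')) hq hPn (fun u _ hu => hu) (fun u _ => hx u) (fun u hu i => ?_) ?_ ?_
      · rw [hPe]
        exact mem_iInter.1 (mem_iInter.1 h1 ⟨u, hu⟩) i
      · refine differentiableOn_pi.2 fun j => ?_
        refine DifferentiableOn.div ?_ (by fun_prop) fun u hu => mul_ne_zero hb0 (pow_ne_zero _ hu)
        exact ((P j).differentiable.pow d).differentiableOn
      · intro u hu j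
        have h4 : eval (pc P u) (MvPolynomial.map (eval t') D) = b * u ^ k := by
          rw [hPe]
          exact mem_iInter.1 h2 ⟨u, hu⟩
        rw [h4, div_mul_cancel₀ _ (mul_ne_zero hb0 (pow_ne_zero _ hu))]
    · rw [← hPe, ← hPe, hx, hx]
      simp only [Pi.smul_apply, smul_eq_mul]
      linear_combination (q.eval z * q.eval w) * h4

/-- The member with the parameters `t` contains a nonconstant holomorphic map of growth `φ` from the
punctured plane. -/
def HasSlowU (φ : ℝ → ℝ) (F : ι → MvPolynomial (Fin (n + 1)) (MvPolynomial τ ℂ))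
    (D : MvPolynomial (Fin (n + 1)) (MvPolynomial τ ℂ)) (t : τ → ℂ) : Prop :=
  ∃ f : ℂ → Fin (n + 1) → ℂ, CurveL (fun i => mem t (F i)) (mem t D) f ∧ SlowL φ f ∧ NC f

/-- **Closed sets of members without algebraic maps.** -/
theorem closed_members [Fintype τ] (F : ι → MvPolynomial (Fin (n + 1)) (MvPolynomial τ ℂ))
    (hF : ∀ i, ∃ e, (F i).IsHomogeneous e) (D : MvPolynomial (Fin (n + 1)) (MvPolynomial τ ℂ))
    (hD : ∃ d, D.IsHomogeneous d) (K : ℕ → Set (τ → ℂ)) (hK : ∀ l, IsClosed (K l))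
    (h : ∀ l, ∀ t ∈ K l, ¬ HasAlg F D t) :
    ∃ φ : ℝ → ℝ, Grows φ ∧ ∀ l, ∀ t ∈ K l, ¬ HasSlowU φ F D t := by
  obtain ⟨φ, hφ, h1⟩ := family_iff F hF D hD K hK
  refine ⟨φ, hφ, fun l t ht => ?_⟩
  rintro ⟨f, hf, hs, hnc⟩
  have h2 := (h1 Unit (fun _ => 1) fun _ => ⟨0, isHomogeneous_one _ _⟩).1 (by
    intro s hs P hP hnc
    obtain ⟨l', hl'⟩ := mem_iUnion.1 hs
    exact absurd ⟨P, hP, hnc⟩ (h l' s hl')) t (mem_iUnion.2 ⟨l, ht⟩) f hf hs hnc 1 one_ne_zero ()
  rw [mem, map_one, map_one] at h2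
  exact one_ne_zero h2

/-- **Almost all members of a family of quasi-projective varieties.** -/
theorem measure_members [Fintype τ] (F : ι → MvPolynomial (Fin (n + 1)) (MvPolynomial τ ℂ))
    (hF : ∀ i, ∃ e, (F i).IsHomogeneous e) (D : MvPolynomial (Fin (n + 1)) (MvPolynomial τ ℂ))
    (hD : ∃ d, D.IsHomogeneous d) (μ : Measure (τ → ℂ)) [IsFiniteMeasureOnCompacts μ] :
    (∀ᵐ t ∂μ, ¬ HasAlg F D t) ↔ ∃ φ : ℝ → ℝ, Grows φ ∧ ∀ᵐ t ∂μ, ¬ HasSlowU φ F D t := by
  constructor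
  · intro h
    have hm : MeasurableSet {t | HasAlg F D t} := by
      rw [hasAlg_iff F hF D hD]
      exact MeasurableSet.iUnion fun N => MeasurableSet.iUnion fun k =>
        ((ss_compact F D N k).image continuous_fst).measurableSet
    obtain ⟨K, hK1, hK2, hK3⟩ := closed_cover' μ {t | HasAlg F D t}ᶜ hm.compl (by
      rw [compl_compl]
      have := ae_iff.1 h
      simpa using this)
    obtain ⟨φ, hφ, h1⟩ := closed_members F hF D hD K hK1 fun l t ht => hK2 l ht
    refine ⟨φ, hφ, ?_⟩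
    filter_upwards [hK3] with t ht
    obtain ⟨l, hl⟩ := ht
    exact h1 l t hl
  · rintro ⟨φ, hφ, h⟩
    filter_upwards [h] with t ht
    rintro ⟨P, hP, hnc⟩
    exact ht ⟨pc P, hP, pc_slowL hφ P, hnc⟩

end Pool.Agent.Run7.h346.GF
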