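import Pool.Agent.R871.SG.LaurC
import Pool.Agent.N634.SH.Unit

/-!
Holomorphic functions without zeros and of slow growth on the punctured plane are monomials.
-/

set_option autoImplicit false

namespace Pool.Agent.Run7.h346.GF

open Filter Topology Metric Set Complex
open Pool.Agent.R871.SG Pool.Agent.N634.SH

/-- A power series with rapidly decreasing coefficients has a primitive. -/
theorem prim_series (a : ℕ → ℂ) (ha : ∀ A : ℝ, 0 ≤ A → Summable fun m : ℕ => A ^ m * ‖a m‖) :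
    ∃ H : ℂ → ℂ, H 0 = 0 ∧ ∀ z, HasDerivAt H (∑' m : ℕ, z ^ m * a m) z := by
  have hd : Differentiable ℂ fun z : ℂ => ∑' m : ℕ, z ^ m * a m := by
    intro z
    have h1 : DifferentiableOn ℂ (fun z : ℂ => ∑' m : ℕ, z ^ m * a m) (ball 0 (‖z‖ + 1)) := by
      refine differentiableOn_tsum_of_summable_norm (u := fun m => (‖z‖ + 1) ^ m * ‖a m‖)
        (ha _ (by positivity)) (fun m => ?_) isOpen_ball fun m w hw => ?_
      · exact ((differentiable_id.pow m).mul_const (a m)).differentiableOn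
      · rw [norm_mul, norm_pow]
        rw [mem_ball_zero_iff] at hw
        gcongr
    exact h1.differentiableAt (isOpen_ball.mem_nhds (by simp))
  obtain ⟨h, hh0, hh⟩ := hd.isExactOn_univ.with_val_at 0 0
  exact ⟨h, hh0, fun z => hh z (mem_univ z)⟩

/-- A zero-free holomorphic function on the punctured plane is a monomial times the exponential
of a holomorphic function. -/
theorem exists_logL {g : ℂ → ℂ} (hg : DifferentiableOn ℂ g {0}ᶜ) (h0 : ∀ z, z ≠ 0 → g z ≠ 0) :
    ∃ (A B : ℂ → ℂ) (b : ℂ) (k : ℤ), Differentiable ℂ A ∧ Differentiable ℂ B ∧ b ≠ 0 ∧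
      ∀ z, z ≠ 0 → g z = b * z ^ k * exp (A z) * exp (B z⁻¹) := by
  have hop : IsOpen ({0}ᶜ : Set ℂ) := isOpen_compl_singleton
  set L : ℂ → ℂ := fun z => deriv g z / g z with hL
  have hLd : DifferentiableOn ℂ L {0}ᶜ := (hg.deriv hop).div hg h0
  have hsm : ∀ A : ℝ, 0 ≤ A → Summable fun m : ℤ => A ^ m.natAbs * ‖lc L m‖ := fun A hA =>
    lc_summable hLd hA
  obtain ⟨HA, hA0, hA⟩ := prim_series (fun m : ℕ => lc L m) (fun A hA => by
    have h1 := (hsm A hA).comp_injective (i := fun m : ℕ => (m : ℤ)) Nat.cast_injective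
    simpa [Function.comp_def] using h1)
  obtain ⟨HB, hB0, hB⟩ := prim_series (fun m : ℕ => lc L (-((m : ℤ) + 2))) (fun A hA => by
    have h1 := (hsm (max A 1) (by positivity)).comp_injective (i := fun m : ℕ => -((m : ℤ) + 2))
      (fun a b hab => by simp only at hab; omega)
    refine Summable.of_nonneg_of_le (fun m => by positivity) (fun m => ?_) h1
    simp only [Function.comp_def]
    have h2 : (-((m : ℤ) + 2)).natAbs = m + 2 := by omega
    rw [h2]
    refine mul_le_mul_of_nonneg_right ?_ (norm_nonneg _)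
    calc A ^ m ≤ (max A 1) ^ m := pow_le_pow_left₀ hA (le_max_left _ _) m
      _ ≤ (max A 1) ^ (m + 2) := pow_le_pow_right₀ (le_max_right _ _) (by omega))
  -- the decomposition
  have hsplit : ∀ z : ℂ, z ≠ 0 → L z = (∑' m : ℕ, z ^ m * lc L m) + z⁻¹ * lc L (-1) +
      (z⁻¹) ^ 2 * ∑' m : ℕ, (z⁻¹) ^ m * lc L (-((m : ℤ) + 2)) := by
    intro z hz
    have h1 := lc_hasSum1 hLd hz
    have h2 : HasSum (fun m : ℕ => z ^ (m : ℤ) * lc L m) (∑' m : ℕ, z ^ m * lc L m) := by
      have h3 : Summable fun m : ℕ => z ^ (m : ℤ) * lc L m :=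
        h1.summable.comp_injective (i := fun m : ℕ => (m : ℤ)) Nat.cast_injective
      have h4 := h3.hasSum
      simpa only [zpow_natCast] using h4
    have h5 : HasSum (fun m : ℕ => z ^ (-((m : ℤ) + 1)) * lc L (-((m : ℤ) + 1)))
        (z⁻¹ * lc L (-1) + (z⁻¹) ^ 2 * ∑' m : ℕ, (z⁻¹) ^ m * lc L (-((m : ℤ) + 2))) := by
      have h3 : Summable fun m : ℕ => z ^ (-((m : ℤ) + 2)) * lc L (-((m : ℤ) + 2)) :=
        h1.summable.comp_injective (i := fun m : ℕ => -((m : ℤ) + 2))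
          (fun a b hab => by simp only at hab; omega)
      have h4 := h3.hasSum
      have h6 : (fun m : ℕ => z ^ (-((m : ℤ) + 2)) * lc L (-((m : ℤ) + 2))) =
          fun m : ℕ => (z⁻¹) ^ 2 * ((z⁻¹) ^ m * lc L (-((m : ℤ) + 2))) := by
        funext m
        rw [← mul_assoc, ← pow_add, inv_pow, zpow_neg]
        congr 2
        rw [add_comm 2 m]
        norm_cast
      rw [h6, tsum_mul_left] at h4
      refine (hasSum_nat_add_iff' 1).1 ?_
      simp only [Finset.sum_range_one, Nat.cast_zero, zero_add]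
      have h7 : z ^ (-1 : ℤ) = z⁻¹ := by simp
      rw [h7, add_sub_cancel_left]
      have h8 : ∀ m : ℕ, z ^ (-(((m + 1 : ℕ) : ℤ) + 1)) * lc L (-(((m + 1 : ℕ) : ℤ) + 1)) =
          (z⁻¹) ^ 2 * ((z⁻¹) ^ m * lc L (-((m : ℤ) + 2))) := by
        intro m
        have h9 : (-(((m + 1 : ℕ) : ℤ) + 1)) = -((m : ℤ) + 2) := by
          push_cast
          ring
        rw [h9]
        exact congrFun h6 m
      simp only [h8]
      exact h4
    have h6 := HasSum.of_nat_of_neg_add_one (f := fun m : ℤ => z ^ m * lc L m) h2 h5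
    have h7 := h1.unique h6
    rw [h7]
    ring
  have hHd : ∀ z, z ≠ 0 → HasDerivAt (fun z => HA z - HB z⁻¹) (L z - z⁻¹ * lc L (-1)) z := by
    intro z hz
    have h1 := (hB z⁻¹).comp z (hasDerivAt_inv hz)
    have h2 := (hA z).sub h1
    refine h2.congr_deriv ?_
    rw [hsplit z hz]
    ring
  -- the quotient
  set u : ℂ → ℂ := fun z => g z * exp (-(HA z - HB z⁻¹)) with hu
  have hud : ∀ z, z ≠ 0 → HasDerivAt u (u z * (z⁻¹ * lc L (-1))) z := by
    intro z hz
    have h1 : HasDerivAt g (deriv g z) z := (hg.differentiableAt (hop.mem_nhds hz)).hasDerivAt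
    have h2 := h1.mul ((hHd z hz).neg.cexp)
    refine h2.congr_deriv ?_
    have h3 : g z * L z = deriv g z := mul_div_cancel₀ _ (h0 z hz)
    simp only [hu]
    linear_combination -exp (-(HA z - HB z⁻¹)) * h3
  -- lifted to the plane
  set v : ℂ → ℂ := fun w => u (exp w) * exp (-(lc L (-1) * w)) with hv
  have hvd : ∀ w, HasDerivAt v 0 w := by
    intro w
    have h1 := (hud (exp w) (exp_ne_zero w)).comp w (hasDerivAt_exp w)
    have h2 : HasDerivAt (fun w => -(lc L (-1) * w)) (-(lc L (-1) * 1)) w :=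
      ((hasDerivAt_id w).const_mul (lc L (-1))).neg
    have h3 := h1.mul h2.cexp
    refine h3.congr_deriv ?_
    simp only [Function.comp_def]
    have h4 : (exp w)⁻¹ * exp w = 1 := inv_mul_cancel₀ (exp_ne_zero w)
    linear_combination (u (exp w) * lc L (-1) * exp (-(lc L (-1) * w))) * h4
  have hvc : ∀ w, u (exp w) = u 1 * exp (lc L (-1) * w) := by
    intro w
    have h1 : v w = v 0 := is_const_of_deriv_eq_zero (fun z => (hvd z).differentiableAt)
      (fun z => (hvd z).deriv) w 0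
    simp only [hv, exp_zero, mul_zero, neg_zero, mul_one] at h1
    rw [← h1, mul_assoc, ← exp_add, neg_add_cancel, exp_zero, mul_one]
  have hu1 : u 1 ≠ 0 := mul_ne_zero (h0 1 one_ne_zero) (exp_ne_zero _)
  obtain ⟨k, hk⟩ : ∃ k : ℤ, lc L (-1) = k := by
    have h1 := hvc (2 * Real.pi * I)
    rw [exp_two_pi_mul_I] at h1
    have h2 : exp (lc L (-1) * (2 * Real.pi * I)) = 1 := by
      have := mul_left_cancel₀ hu1 (h1.symm.trans (mul_one (u 1)).symm)
      exact this
    obtain ⟨k, hk⟩ := exp_eq_one_iff.1 h2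
    refine ⟨k, ?_⟩
    have h3 : (2 * Real.pi * I : ℂ) ≠ 0 := two_pi_I_ne_zero
    exact mul_right_cancel₀ h3 hk
  refine ⟨HA, fun w => -HB w, u 1, k, fun z => (hA z).differentiableAt,
    fun z => (hB z).differentiableAt.neg, hu1, fun z hz => ?_⟩
  have h1 := hvc (log z)
  rw [exp_log hz, hk] at h1
  have h2 : exp (k * log z) = z ^ k := by
    rw [exp_int_mul, exp_log hz]
  rw [h2] at h1
  rw [← h1, hu]
  simp only
  rw [mul_assoc, mul_assoc, ← exp_add, ← exp_add]
  have h3 : -(HA z - HB z⁻¹) + (HA z + -HB z⁻¹) = 0 := by ring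
  rw [h3, exp_zero, mul_one]

/-- **Zero-free functions of slow growth on the punctured plane are monomials.** -/
theorem unit_mono {g : ℂ → ℂ} (hg : DifferentiableOn ℂ g {0}ᶜ) (h0 : ∀ z, z ≠ 0 → g z ≠ 0)
    (C D : ℝ) (hs : ∀ R : ℝ, ∃ r > R, ∀ z, r⁻¹ ≤ ‖z‖ → ‖z‖ ≤ r →
      Real.log ‖g z‖ ≤ C + D * Real.sqrt r) :
    ∃ (b : ℂ) (k : ℤ), b ≠ 0 ∧ ∀ z, z ≠ 0 → g z = b * z ^ k := by
  obtain ⟨A, B, b, k, hA, hB, hb, hgz⟩ := exists_logL hg h0
  have hre : ∀ z, z ≠ 0 → Real.log ‖g z‖ = Real.log ‖b‖ + k * Real.log ‖z‖ + (A z).re +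
      (B z⁻¹).re := by
    intro z hz
    have h1 := norm_ne_zero_iff.2 hb
    have h2 := zpow_ne_zero k (norm_ne_zero_iff.2 hz)
    rw [hgz z hz, norm_mul, norm_mul, norm_mul, norm_zpow, norm_exp, norm_exp,
      Real.log_mul (mul_ne_zero (mul_ne_zero h1 h2) (Real.exp_ne_zero _)) (Real.exp_ne_zero _),
      Real.log_mul (mul_ne_zero h1 h2) (Real.exp_ne_zero _), Real.log_mul h1 h2, Real.log_exp,
      Real.log_exp, Real.log_zpow]
  obtain ⟨MA, hMA⟩ := (isCompact_closedBall (0 : ℂ) 1).exists_bound_of_continuousOn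
    hA.continuous.continuousOn
  obtain ⟨MB, hMB⟩ := (isCompact_closedBall (0 : ℂ) 1).exists_bound_of_continuousOn
    hB.continuous.continuousOn
  have hMA0 : 0 ≤ MA := (norm_nonneg _).trans (hMA 0 (by simp))
  have hMB0 : 0 ≤ MB := (norm_nonneg _).trans (hMB 0 (by simp))
  have hlogr : ∀ r : ℝ, 1 ≤ r → Real.log r ≤ 2 * Real.sqrt r := by
    intro r hr
    have h1 := Real.log_le_sub_one_of_pos (x := Real.sqrt r) (Real.sqrt_pos.2 (by linarith))
    have h2 : Real.log r = 2 * Real.log (Real.sqrt r) := by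
      rw [Real.log_sqrt (by linarith)]
      ring
    rw [h2]
    linarith
  -- bounds on the annulus
  have hann : ∀ R : ℝ, ∃ r > R, 1 ≤ r ∧ ∀ z, z ≠ 0 → r⁻¹ ≤ ‖z‖ → ‖z‖ ≤ r →
      (A z).re + (B z⁻¹).re ≤ C + |Real.log ‖b‖| + (D + 2 * |(k : ℝ)|) * Real.sqrt r := by
    intro R
    obtain ⟨r, hr, h1⟩ := hs (max R 1)
    have hr1 : 1 ≤ r := ((le_max_right _ _).trans_lt hr).le
    refine ⟨r, (le_max_left _ _).trans_lt hr, hr1, fun z hz hz1 hz2 => ?_⟩
    have h2 := h1 z hz1 hz2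
    rw [hre z hz] at h2
    have h3 : |Real.log ‖z‖| ≤ Real.log r := by
      have hz0 : 0 < ‖z‖ := norm_pos_iff.2 hz
      rw [abs_le]
      constructor
      · rw [← Real.log_inv]
        exact Real.log_le_log (by positivity) hz1
      · exact Real.log_le_log hz0 hz2
    have h4 : |(k : ℝ) * Real.log ‖z‖| ≤ |(k : ℝ)| * (2 * Real.sqrt r) := by
      rw [abs_mul]
      exact mul_le_mul_of_nonneg_left (h3.trans (hlogr r hr1)) (abs_nonneg _)
    have h5 := neg_abs_le ((k : ℝ) * Real.log ‖z‖)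
    have h6 := neg_abs_le (Real.log ‖b‖)
    linarith
  have hinv : ∀ (r : ℝ) (z : ℂ), 1 ≤ r → 1 ≤ ‖z‖ → ‖z‖ ≤ r → r⁻¹ ≤ ‖z‖ ∧ r⁻¹ ≤ ‖z⁻¹‖ ∧
      ‖z⁻¹‖ ≤ 1 ∧ ‖z⁻¹‖ ≤ r := by
    intro r z hr hz1 hz2
    have h1 : r⁻¹ ≤ 1 := inv_le_one_of_one_le₀ hr
    have h2 : ‖z‖⁻¹ ≤ 1 := inv_le_one_of_one_le₀ hz1
    have h3 : r⁻¹ ≤ ‖z‖⁻¹ := inv_anti₀ (by linarith) hz2
    rw [norm_inv]
    exact ⟨by linarith, h3, h2, by linarith⟩
  have hsq : ∀ r : ℝ, 0 ≤ (|D| + 2 * |(k : ℝ)|) * Real.sqrt r := fun r => by positivity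
  have hDD : ∀ r : ℝ, (D + 2 * |(k : ℝ)|) * Real.sqrt r ≤ (|D| + 2 * |(k : ℝ)|) * Real.sqrt r :=
    fun r => by
      gcongr
      exact le_abs_self D
  have hEA : ∀ z, exp (A z) = exp (A 0) := by
    intro z
    refine unit_const (g := fun z => exp (A z)) hA.cexp (fun z => exp_ne_zero _)
      (|C| + |Real.log ‖b‖| + MA + MB) (|D| + 2 * |(k : ℝ)|) (fun R => ?_) z
    obtain ⟨r, hr, hr1, h1⟩ := hann R
    refine ⟨r, hr, fun w hw => ?_⟩
    rw [norm_exp, Real.log_exp]
    rcases le_total ‖w‖ 1 with hw1 | hw1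
    · have h2 := (Complex.re_le_norm (A w)).trans (hMA w (by simpa using hw1))
      have h3 := hsq r
      have h4 := abs_nonneg C
      have h5 := abs_nonneg (Real.log ‖b‖)
      linarith
    · have hw0 : w ≠ 0 := by
        rintro rfl
        rw [norm_zero] at hw1
        linarith
      obtain ⟨h2, h3, h4, h5⟩ := hinv r w hr1 hw1 hw
      have h6 := h1 w hw0 h2 hw
      have h7 := (Complex.abs_re_le_norm (B w⁻¹)).trans (hMB w⁻¹ (by simpa using h4))
      have h8 := neg_abs_le (B w⁻¹).re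
      have h9 := hDD r
      have h10 := le_abs_self C
      linarith
  have hEB : ∀ z, exp (B z) = exp (B 0) := by
    intro z
    refine unit_const (g := fun z => exp (B z)) hB.cexp (fun z => exp_ne_zero _)
      (|C| + |Real.log ‖b‖| + MA + MB) (|D| + 2 * |(k : ℝ)|) (fun R => ?_) z
    obtain ⟨r, hr, hr1, h1⟩ := hann R
    refine ⟨r, hr, fun w hw => ?_⟩
    rw [norm_exp, Real.log_exp]
    rcases le_total ‖w‖ 1 with hw1 | hw1
    · have h2 := (Complex.re_le_norm (B w)).trans (hMB w (by simpa using hw1))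
      have h3 := hsq r
      have h4 := abs_nonneg C
      have h5 := abs_nonneg (Real.log ‖b‖)
      linarith
    · have hw0 : w ≠ 0 := by
        rintro rfl
        rw [norm_zero] at hw1
        linarith
      obtain ⟨h2, h3, h4, h5⟩ := hinv r w hr1 hw1 hw
      have h6 := h1 w⁻¹ (inv_ne_zero hw0) h3 h5
      rw [inv_inv] at h6
      have h7 := (Complex.abs_re_le_norm (A w⁻¹)).trans (hMA w⁻¹ (by simpa using h4))
      have h8 := neg_abs_le (A w⁻¹).re
      have h9 := hDD r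
      have h10 := le_abs_self C
      linarith
  refine ⟨b * exp (A 0) * exp (B 0), k, mul_ne_zero (mul_ne_zero hb (exp_ne_zero _))
    (exp_ne_zero _), fun z hz => ?_⟩
  rw [hgz z hz, hEA z, hEB z⁻¹]
  ring

end Pool.Agent.Run7.h346.GF
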